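import Mathlib
import Pool.Agent.Lib_MP_f1a94e_eck.Svw

/-!
# Selberg weights supported on integers prime to a fixed modulus

Same construction as `Pool.Agent.EC.svw`, the sum over `g` being restricted to `g` prime to `Q`.
-/

set_option autoImplicit false

namespace Pool.Agent.EMSeed

open Finset Pool.Agent.EC

/-- the normalising sum -/
noncomputable def JQ (Q z : ℕ) : ℝ :=
  ∑ g ∈ (Icc 1 z).filter (fun g => Squarefree g ∧ g.Coprime Q), 1 / (g.totient : ℝ)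

/-- the optimal weights -/
noncomputable def sqR (Q z : ℕ) (J : ℝ) (d : ℕ) : ℝ :=
  (d / J) * ∑ g ∈ Icc 1 z, (if d ∣ g ∧ g.Coprime Q then
    ((ArithmeticFunction.moebius (g / d) : ℤ) : ℝ) *
    ((ArithmeticFunction.moebius g : ℤ) : ℝ) / (g.totient : ℝ) else 0)

theorem JQ_pos {Q z : ℕ} (hz : 1 ≤ z) : 0 < JQ Q z := by
  unfold JQ
  apply Finset.sum_pos'
  · intro g _
    positivity
  · refine ⟨1, ?_, ?_⟩
    · rw [mem_filter, mem_Icc]
      exact ⟨⟨le_rfl, hz⟩, squarefree_one, Nat.coprime_one_left Q⟩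
    · simp

theorem sqR_one (Q z : ℕ) (hz : 1 ≤ z) : sqR Q z (JQ Q z) 1 = 1 := by
  unfold sqR
  have h1 : ∑ g ∈ Icc 1 z, (if 1 ∣ g ∧ g.Coprime Q then
    ((ArithmeticFunction.moebius (g / 1) : ℤ) : ℝ) *
    ((ArithmeticFunction.moebius g : ℤ) : ℝ) / (g.totient : ℝ) else 0) = JQ Q z := by
    unfold JQ
    rw [Finset.sum_filter]
    apply Finset.sum_congr rfl
    intro g _
    rw [Nat.div_one, svw_musq]
    by_cases hc : g.Coprime Q <;> by_cases hs : Squarefree g <;> simp [hc, hs]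
  rw [h1]
  simp [(JQ_pos (Q := Q) hz).ne']

theorem sqR_le (Q z : ℕ) (hz : 1 ≤ z) (d : ℕ) (hd : d ≤ z) : |sqR Q z (JQ Q z) d| ≤ z := by
  unfold sqR
  have hJ := JQ_pos (Q := Q) hz
  rw [abs_mul, abs_of_nonneg (by positivity)]
  have h1 : |∑ g ∈ Icc 1 z, (if d ∣ g ∧ g.Coprime Q then
    ((ArithmeticFunction.moebius (g / d) : ℤ) : ℝ) *
    ((ArithmeticFunction.moebius g : ℤ) : ℝ) / (g.totient : ℝ) else 0)| ≤ JQ Q z := by
    refine (Finset.abs_sum_le_sum_abs _ _).trans ?_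
    unfold JQ
    rw [Finset.sum_filter]
    apply Finset.sum_le_sum
    intro g _
    by_cases h2 : d ∣ g ∧ g.Coprime Q
    · rw [if_pos h2]
      by_cases h3 : Squarefree g
      · rw [if_pos ⟨h3, h2.2⟩]
        rw [abs_div, abs_mul, abs_of_nonneg (Nat.cast_nonneg _ : (0:ℝ) ≤ (g.totient : ℝ))]
        apply div_le_div_of_nonneg_right _ (Nat.cast_nonneg _)
        have h4 : |((ArithmeticFunction.moebius (g / d) : ℤ) : ℝ)| ≤ 1 := by
          exact_mod_cast ArithmeticFunction.abs_moebius_le_one (n := g / d)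
        have h5 : |((ArithmeticFunction.moebius g : ℤ) : ℝ)| ≤ 1 := by
          exact_mod_cast ArithmeticFunction.abs_moebius_le_one (n := g)
        have h6 := abs_nonneg ((ArithmeticFunction.moebius g : ℤ) : ℝ)
        have h7 := abs_nonneg ((ArithmeticFunction.moebius (g / d) : ℤ) : ℝ)
        nlinarith
      · rw [ArithmeticFunction.moebius_eq_zero_of_not_squarefree h3]
        rw [if_neg (fun h => h3 h.1)]
        simp
    · rw [if_neg h2, abs_zero]
      split_ifs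
      · positivity
      · exact le_rfl
  have h2 : (d : ℝ) ≤ z := by exact_mod_cast hd
  calc (d : ℝ) / JQ Q z * _ ≤ (d : ℝ) / JQ Q z * JQ Q z := mul_le_mul_of_nonneg_left h1 (by positivity)
    _ = d := by field_simp
    _ ≤ z := h2

theorem sqR_zero (Q z : ℕ) (J : ℝ) (d : ℕ) (hd : ¬ d.Coprime Q) : sqR Q z J d = 0 := by
  unfold sqR
  rw [Finset.sum_eq_zero, mul_zero]
  intro g _
  rw [if_neg]
  rintro ⟨h1, h2⟩
  exact hd (Nat.Coprime.coprime_dvd_left h1 h2)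

theorem sqR_y (Q z : ℕ) (J : ℝ) (h : ℕ) (hh : h ∈ Icc 1 z) :
    ∑ d ∈ Icc 1 z, (if h ∣ d then sqR Q z J d / d else 0) =
      if h.Coprime Q then ((ArithmeticFunction.moebius h : ℤ) : ℝ) / ((h.totient : ℝ) * J) else 0 := by
  rw [Finset.mem_Icc] at hh
  have h1 : ∀ d ∈ Icc 1 z, (if h ∣ d then sqR Q z J d / d else 0) = ∑ g ∈ Icc 1 z,
      (if g.Coprime Q then (1 / J) * (((ArithmeticFunction.moebius g : ℤ) : ℝ) / (g.totient : ℝ)) else 0) *
        (if h ∣ d ∧ d ∣ g then ((ArithmeticFunction.moebius (g / d) : ℤ) : ℝ) else 0) := by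
    intro d hd
    rw [Finset.mem_Icc] at hd
    have hd0 : (d : ℝ) ≠ 0 := by exact_mod_cast (by omega : d ≠ 0)
    by_cases hc : h ∣ d
    · rw [if_pos hc]
      unfold sqR
      rw [mul_div_right_comm, Finset.mul_sum]
      apply Finset.sum_congr rfl
      intro g _
      by_cases hg : d ∣ g
      · by_cases hq : g.Coprime Q
        · rw [if_pos ⟨hg, hq⟩, if_pos hq, if_pos ⟨hc, hg⟩]
          field_simp
        · rw [if_neg (fun hcon => hq hcon.2), if_neg hq]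
          ring
      · rw [if_neg (fun hcon => hg hcon.1), if_neg (c := h ∣ d ∧ d ∣ g) (fun hcon => hg hcon.2)]
        ring
    · rw [if_neg hc]
      symm
      apply Finset.sum_eq_zero
      intro g _
      rw [if_neg (c := h ∣ d ∧ d ∣ g) (fun hcon => hc hcon.1), mul_zero]
  rw [Finset.sum_congr rfl h1, Finset.sum_comm]
  have h2 : ∀ g ∈ Icc 1 z, ∑ d ∈ Icc 1 z,
      (if g.Coprime Q then (1 / J) * (((ArithmeticFunction.moebius g : ℤ) : ℝ) / (g.totient : ℝ)) else 0) *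
        (if h ∣ d ∧ d ∣ g then ((ArithmeticFunction.moebius (g / d) : ℤ) : ℝ) else 0) =
      if h = g then (if g.Coprime Q then (1 / J) *
        (((ArithmeticFunction.moebius g : ℤ) : ℝ) / (g.totient : ℝ)) else 0) else 0 := by
    intro g hg
    rw [Finset.mem_Icc] at hg
    rw [← Finset.mul_sum, svw_inner z g h hg.1 hg.2 hh.1]
    by_cases hc : g = h
    · rw [if_pos hc, if_pos hc.symm, mul_one]
    · rw [if_neg hc, if_neg (c := h = g) (fun hcon => hc hcon.symm), mul_zero]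
  rw [Finset.sum_congr rfl h2, Finset.sum_ite_eq, if_pos (Finset.mem_Icc.2 hh)]
  by_cases hq : h.Coprime Q
  · rw [if_pos hq, if_pos hq]
    rw [mul_comm (h.totient : ℝ) J, one_div, inv_mul_eq_div, div_div, mul_comm (h.totient : ℝ) J]
  · rw [if_neg hq, if_neg hq]

/-- Selberg weights supported on integers prime to `Q` -/
theorem svq (Q z : ℕ) (hz : 2 ≤ z) : ∃ lam : ℕ → ℝ, lam 1 = 1 ∧ (∀ d, z ^ 2 < d → lam d = 0) ∧
    (∀ d, ¬ d.Coprime Q → lam d = 0) ∧
    (∑ d ∈ Icc 1 (z ^ 2), |lam d| ≤ (z : ℝ) ^ 4) ∧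
    (∀ m : ℕ, 0 < m → 0 ≤ ∑ d ∈ m.divisors, lam d) ∧
    (∑ d ∈ Icc 1 (z ^ 2), lam d / d = 1 / JQ Q z) := by
  have hJ : 0 < JQ Q z := JQ_pos (by omega)
  obtain ⟨J, hJd⟩ : ∃ J : ℝ, J = JQ Q z := ⟨_, rfl⟩
  rw [← hJd] at hJ ⊢
  obtain ⟨ρ, hρ⟩ : ∃ ρ : ℕ → ℝ, ρ = sqR Q z J := ⟨_, rfl⟩
  have hρ1 : ρ 1 = 1 := by rw [hρ, hJd]; exact sqR_one Q z (by omega)
  have hρz : ∀ d ∈ Icc 1 z, |ρ d| ≤ z := by
    intro d hd
    rw [hρ, hJd]
    exact sqR_le Q z (by omega) d (Finset.mem_Icc.1 hd).2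
  have hlcm : ∀ d1 ∈ Icc 1 z, ∀ d2 ∈ Icc 1 z, Nat.lcm d1 d2 ∈ Icc 1 (z ^ 2) := by
    intro d1 h1 d2 h2
    rw [Finset.mem_Icc] at h1 h2 ⊢
    refine ⟨Nat.lcm_pos h1.1 h2.1, ?_⟩
    calc Nat.lcm d1 d2 ≤ d1 * d2 := Nat.le_of_dvd (Nat.mul_pos h1.1 h2.1)
          (Nat.lcm_dvd (Dvd.intro _ rfl) (Dvd.intro_left _ rfl))
      _ ≤ z * z := Nat.mul_le_mul h1.2 h2.2
      _ = z ^ 2 := (sq z).symm
  refine ⟨svL ρ (Icc 1 z), ?_, ?_, ?_, ?_, ?_, ?_⟩
  · unfold svL
    have h1 : 1 ∈ Icc 1 z := Finset.mem_Icc.2 ⟨le_rfl, by omega⟩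
    rw [Finset.sum_eq_single_of_mem 1 h1, Finset.sum_eq_single_of_mem 1 h1]
    · simp [hρ1]
    · intro d2 _ hd2
      rw [if_neg]
      simp [hd2]
    · intro d1 _ hd1
      apply Finset.sum_eq_zero
      intro d2 _
      rw [if_neg]
      intro hcon
      apply hd1
      have : d1 ∣ 1 := by rw [← hcon]; exact Nat.dvd_lcm_left d1 d2
      exact Nat.dvd_one.1 this
  · intro m hm
    unfold svL
    apply Finset.sum_eq_zero
    intro d1 h1
    apply Finset.sum_eq_zero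
    intro d2 h2
    rw [if_neg]
    intro hcon
    have := hlcm d1 h1 d2 h2
    rw [hcon, Finset.mem_Icc] at this
    omega
  · intro m hm
    unfold svL
    apply Finset.sum_eq_zero
    intro d1 h1
    apply Finset.sum_eq_zero
    intro d2 h2
    split_ifs with hcon
    · by_cases a : d1.Coprime Q
      · by_cases b : d2.Coprime Q
        · exfalso
          apply hm
          rw [← hcon]
          exact Nat.Coprime.coprime_dvd_left (Nat.lcm_dvd (Dvd.intro _ rfl) (Dvd.intro_left _ rfl))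
            (Nat.Coprime.mul_left a b)
        · have : ρ d2 = 0 := by rw [hρ]; exact sqR_zero Q z J d2 b
          rw [this, mul_zero]
      · have : ρ d1 = 0 := by rw [hρ]; exact sqR_zero Q z J d1 a
        rw [this, zero_mul]
    · rfl
  · have h1 : ∀ m ∈ Icc 1 (z ^ 2), |svL ρ (Icc 1 z) m| ≤ svL (fun d => |ρ d|) (Icc 1 z) m * 1 := by
      intro m _
      rw [mul_one]
      unfold svL
      refine (Finset.abs_sum_le_sum_abs _ _).trans (Finset.sum_le_sum fun d1 _ => ?_)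
      refine (Finset.abs_sum_le_sum_abs _ _).trans (Finset.sum_le_sum fun d2 _ => ?_)
      split_ifs
      · rw [abs_mul]
      · rw [abs_zero]
    refine (Finset.sum_le_sum h1).trans ?_
    rw [svL_ex (fun d => |ρ d|) (Icc 1 z) (Icc 1 (z ^ 2)) (fun _ => 1)]
    calc _ ≤ ∑ d1 ∈ Icc 1 z, ∑ d2 ∈ Icc 1 z, (z : ℝ) * z := by
          apply Finset.sum_le_sum
          intro d1 h1
          apply Finset.sum_le_sum
          intro d2 h2
          rw [if_pos (hlcm d1 h1 d2 h2), mul_one]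
          exact mul_le_mul (hρz d1 h1) (hρz d2 h2) (abs_nonneg _) (by positivity)
      _ = (z : ℝ) ^ 4 := by
          simp only [Finset.sum_const, Nat.card_Icc, nsmul_eq_mul, Nat.add_sub_cancel]
          ring
  · intro m hm
    have h1 : ∑ d ∈ m.divisors, svL ρ (Icc 1 z) d =
        (∑ d ∈ Icc 1 z, if d ∣ m then ρ d else 0) ^ 2 := by
      have h2 := svL_ex ρ (Icc 1 z) m.divisors (fun _ => 1)
      simp only [mul_one] at h2
      rw [h2, sq, Finset.sum_mul_sum]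
      apply Finset.sum_congr rfl
      intro d1 _
      apply Finset.sum_congr rfl
      intro d2 _
      have h3 : Nat.lcm d1 d2 ∈ m.divisors ↔ d1 ∣ m ∧ d2 ∣ m := by
        rw [Nat.mem_divisors, Nat.lcm_dvd_iff]
        exact ⟨fun h => h.1, fun h => ⟨h, by omega⟩⟩
      by_cases a : d1 ∣ m <;> by_cases b : d2 ∣ m
      · rw [if_pos (h3.2 ⟨a, b⟩), if_pos a, if_pos b]
      · rw [if_neg (fun hc => b (h3.1 hc).2), if_neg b, mul_zero]
      · rw [if_neg (fun hc => a (h3.1 hc).1), if_neg a, zero_mul]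
      · rw [if_neg (fun hc => a (h3.1 hc).1), if_neg a, zero_mul]
    rw [h1]
    positivity
  · have h2 := svL_ex ρ (Icc 1 z) (Icc 1 (z ^ 2)) (fun m => 1 / (m : ℝ))
    simp only [mul_one_div] at h2
    rw [h2]
    have h3 : ∀ d1 ∈ Icc 1 z, ∀ d2 ∈ Icc 1 z, (if Nat.lcm d1 d2 ∈ Icc 1 (z ^ 2) then
        ρ d1 * ρ d2 / ((Nat.lcm d1 d2 : ℕ) : ℝ) else 0) =
        ∑ h ∈ Icc 1 z, (h.totient : ℝ) * ((if h ∣ d1 then ρ d1 / d1 else 0) *
          (if h ∣ d2 then ρ d2 / d2 else 0)) := by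
      intro d1 hd1 d2 hd2
      rw [if_pos (hlcm d1 hd1 d2 hd2)]
      have e1 := Finset.mem_Icc.1 hd1
      have e2 := Finset.mem_Icc.1 hd2
      have p1 : (d1 : ℝ) ≠ 0 := by exact_mod_cast (by omega : d1 ≠ 0)
      have p2 : (d2 : ℝ) ≠ 0 := by exact_mod_cast (by omega : d2 ≠ 0)
      have p3 : ((Nat.lcm d1 d2 : ℕ) : ℝ) ≠ 0 := by
        exact_mod_cast (Nat.lcm_pos e1.1 e2.1).ne'
      have p4 : ((Nat.gcd d1 d2 : ℕ) : ℝ) * ((Nat.lcm d1 d2 : ℕ) : ℝ) = (d1 : ℝ) * d2 := by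
        exact_mod_cast Nat.gcd_mul_lcm d1 d2
      have p5 : ρ d1 * ρ d2 / ((Nat.lcm d1 d2 : ℕ) : ℝ) =
          ((Nat.gcd d1 d2 : ℕ) : ℝ) * (ρ d1 / d1 * (ρ d2 / d2)) := by
        have p6 : ρ d1 / d1 * (ρ d2 / d2) = ρ d1 * ρ d2 / (d1 * d2) := by
          field_simp
        rw [p6, ← p4]
        have p7 : ((Nat.gcd d1 d2 : ℕ) : ℝ) ≠ 0 := by
          exact_mod_cast Nat.gcd_ne_zero_left (by omega)
        field_simp
      rw [p5, sv_gcd z d1 d2 hd1, Finset.sum_mul]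
      apply Finset.sum_congr rfl
      intro h _
      by_cases a : h ∣ d1 <;> by_cases b : h ∣ d2 <;> simp [a, b]
    rw [Finset.sum_congr rfl fun d1 hd1 => Finset.sum_congr rfl fun d2 hd2 => h3 d1 hd1 d2 hd2]
    have h4 : ∑ d1 ∈ Icc 1 z, ∑ d2 ∈ Icc 1 z, ∑ h ∈ Icc 1 z, (h.totient : ℝ) *
        ((if h ∣ d1 then ρ d1 / d1 else 0) * (if h ∣ d2 then ρ d2 / d2 else 0)) =
        ∑ h ∈ Icc 1 z, (h.totient : ℝ) * (∑ d ∈ Icc 1 z, (if h ∣ d then ρ d / d else 0)) ^ 2 := by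
      have e1 : ∀ d1 ∈ Icc 1 z, ∑ d2 ∈ Icc 1 z, ∑ h ∈ Icc 1 z, (h.totient : ℝ) *
        ((if h ∣ d1 then ρ d1 / d1 else 0) * (if h ∣ d2 then ρ d2 / d2 else 0)) =
          ∑ h ∈ Icc 1 z, ∑ d2 ∈ Icc 1 z, (h.totient : ℝ) *
        ((if h ∣ d1 then ρ d1 / d1 else 0) * (if h ∣ d2 then ρ d2 / d2 else 0)) :=
        fun d1 _ => Finset.sum_comm
      rw [Finset.sum_congr rfl e1, Finset.sum_comm]
      apply Finset.sum_congr rfl
      intro h _
      rw [sq, Finset.sum_mul_sum, Finset.mul_sum]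
      apply Finset.sum_congr rfl
      intro d1 _
      rw [Finset.mul_sum]
    rw [h4]
    have h5 : ∀ h ∈ Icc 1 z, (h.totient : ℝ) *
        (∑ d ∈ Icc 1 z, (if h ∣ d then ρ d / d else 0)) ^ 2 =
        (1 / J ^ 2) * (if Squarefree h ∧ h.Coprime Q then 1 / (h.totient : ℝ) else 0) := by
      intro h hh
      rw [hρ, sqR_y Q z J h hh]
      have h6 : (h.totient : ℝ) ≠ 0 := by
        have := Nat.totient_pos.2 (Finset.mem_Icc.1 hh).1
        exact_mod_cast this.ne'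
      by_cases hq : h.Coprime Q
      · have h7 : (if Squarefree h ∧ h.Coprime Q then 1 / (h.totient : ℝ) else 0) =
            if Squarefree h then 1 / (h.totient : ℝ) else 0 := by
          by_cases hs : Squarefree h <;> simp [hs, hq]
        rw [if_pos hq, h7, ← svw_musq]
        field_simp
      · rw [if_neg hq, if_neg (fun hc => hq hc.2)]
        ring
    rw [Finset.sum_congr rfl h5, ← Finset.mul_sum, ← Finset.sum_filter]
    have h8 : ∑ g ∈ (Icc 1 z).filter (fun g => Squarefree g ∧ g.Coprime Q),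
        1 / (g.totient : ℝ) = J := by rw [hJd]; rfl
    rw [h8]
    field_simp

end Pool.Agent.EMSeed
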