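import Mathlib
import Pool.Agent.Lib_MP_f1a94e_eck.Jlow
import Pool.Agent.Lib_MP_cde011_em.SvQ

/-!
# Lower bound for the normalising sum
-/

set_option autoImplicit false

namespace Pool.Agent.EMSeed

open Finset Pool.Agent.EC

/-- `J ≤ (∑_{l ∣ Q} 1/φ(l)) * J_Q` -/
theorem J_le_mul (Q z : ℕ) (hQ : 0 < Q) :
    ∑ g ∈ (Icc 1 z).filter Squarefree, 1 / (g.totient : ℝ) ≤
      (∑ l ∈ Q.divisors, 1 / (l.totient : ℝ)) * JQ Q z := by
  unfold JQ
  rw [Finset.sum_mul_sum, ← Finset.sum_product']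
  -- `g ↦ (gcd g Q, g / gcd g Q)`
  have h1 : ∑ g ∈ (Icc 1 z).filter Squarefree, 1 / (g.totient : ℝ) =
      ∑ x ∈ ((Icc 1 z).filter Squarefree).image (fun g => (g.gcd Q, g / g.gcd Q)),
        1 / (x.1.totient : ℝ) * (1 / (x.2.totient : ℝ)) := by
    rw [Finset.sum_image]
    · apply Finset.sum_congr rfl
      intro g hg
      rw [mem_filter, mem_Icc] at hg
      have hg' : g = g.gcd Q * (g / g.gcd Q) := (Nat.mul_div_cancel' (Nat.gcd_dvd_left g Q)).symm
      have hcop : Nat.Coprime (g.gcd Q) (g / g.gcd Q) := by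
        apply Nat.coprime_of_squarefree_mul
        rw [← hg']
        exact hg.2
      have ht : g.totient = (g.gcd Q).totient * (g / g.gcd Q).totient := by
        conv_lhs => rw [hg']
        exact Nat.totient_mul hcop
      simp only
      rw [ht]
      push_cast
      rw [one_div_mul_one_div]
    · intro a ha b hb hab
      simp only [Prod.mk.injEq] at hab
      calc a = a.gcd Q * (a / a.gcd Q) := (Nat.mul_div_cancel' (Nat.gcd_dvd_left a Q)).symm
        _ = b.gcd Q * (b / b.gcd Q) := by rw [hab.2, hab.1]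
        _ = b := Nat.mul_div_cancel' (Nat.gcd_dvd_left b Q)
  rw [h1]
  apply Finset.sum_le_sum_of_subset_of_nonneg
  · intro x hx
    rw [mem_image] at hx
    obtain ⟨g, hg, rfl⟩ := hx
    rw [mem_filter, mem_Icc] at hg
    have hg' : g = g.gcd Q * (g / g.gcd Q) := (Nat.mul_div_cancel' (Nat.gcd_dvd_left g Q)).symm
    have hcop : Nat.Coprime (g.gcd Q) (g / g.gcd Q) := by
      apply Nat.coprime_of_squarefree_mul
      rw [← hg']
      exact hg.2
    have hpos : 0 < g.gcd Q := Nat.gcd_pos_of_pos_right g hQ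
    rw [mem_product, Nat.mem_divisors, mem_filter, mem_Icc]
    refine ⟨⟨Nat.gcd_dvd_right g Q, hQ.ne'⟩, ⟨Nat.div_pos (Nat.le_of_dvd hg.1.1 (Nat.gcd_dvd_left g Q)) hpos,
      (Nat.div_le_self _ _).trans hg.1.2⟩, ?_, ?_⟩
    · exact hg.2.squarefree_of_dvd (Nat.div_dvd_of_dvd (Nat.gcd_dvd_left g Q))
    · rw [Nat.coprime_iff_gcd_eq_one]
      by_contra hne
      obtain ⟨r, hr, hrd⟩ := Nat.exists_prime_and_dvd hne
      have h2 : r ∣ g / g.gcd Q := hrd.trans (Nat.gcd_dvd_left _ _)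
      have h3 : r ∣ Q := hrd.trans (Nat.gcd_dvd_right _ _)
      have h4 : r ∣ g := h2.trans (Nat.div_dvd_of_dvd (Nat.gcd_dvd_left g Q))
      have h5 : r ∣ g.gcd Q := Nat.dvd_gcd h4 h3
      have h6 := Nat.dvd_gcd h5 h2
      rw [hcop] at h6
      exact hr.one_lt.ne' (Nat.dvd_one.mp h6)
  · intro x _ _
    positivity

/-- `∑_{l ∣ Q} 1/φ(l) = Q/φ(Q)` for squarefree `Q` -/
theorem sum_inv_totient {Q : ℕ} (hQ : Squarefree Q) :
    ∑ l ∈ Q.divisors, 1 / (l.totient : ℝ) = Q / (Q.totient : ℝ) := by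
  induction Q using Nat.recOnPosPrimePosCoprime with
  | prime_pow p n hp hn =>
    have hn1 : n = 1 := by
      by_contra hne
      have h2 : 2 ≤ n := by omega
      have h3 : p * p ∣ p ^ n := by
        rw [← sq]
        exact pow_dvd_pow p h2
      have := hQ p h3
      exact hp.one_lt.ne' (Nat.isUnit_iff.mp this)
    subst hn1
    rw [pow_one, hp.divisors, Finset.sum_insert, Finset.sum_singleton, Nat.totient_prime hp]
    · have h1 : (2 : ℝ) ≤ p := by exact_mod_cast hp.two_le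
      rw [Nat.cast_sub hp.one_lt.le]
      simp only [Nat.totient_one, Nat.cast_one]
      have h2 : (p : ℝ) - 1 ≠ 0 := by linarith
      field_simp
      ring
    · rw [Finset.mem_singleton]
      exact hp.one_lt.ne
  | zero => exact absurd hQ not_squarefree_zero
  | one => simp
  | coprime a b ha hb hab iha ihb =>
    have hQa : Squarefree a := hQ.squarefree_of_dvd (Dvd.intro _ rfl)
    have hQb : Squarefree b := hQ.squarefree_of_dvd (Dvd.intro_left _ rfl)
    rw [Nat.divisors_mul, Finset.mul_def, Finset.sum_image hab.mul_injOn_divisors,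
      Nat.totient_mul hab]
    have h1 : ∑ x ∈ a.divisors ×ˢ b.divisors, 1 / (((x.1 * x.2).totient : ℕ) : ℝ) =
        ∑ x ∈ a.divisors ×ˢ b.divisors, 1 / (x.1.totient : ℝ) * (1 / (x.2.totient : ℝ)) := by
      apply Finset.sum_congr rfl
      intro x hx
      rw [Finset.mem_product, Nat.mem_divisors, Nat.mem_divisors] at hx
      have h2 : Nat.Coprime x.1 x.2 :=
        Nat.Coprime.coprime_dvd_left hx.1.1 (Nat.Coprime.coprime_dvd_right hx.2.1 hab)
      rw [Nat.totient_mul h2]
      push_cast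
      rw [one_div_mul_one_div]
    rw [h1, Finset.sum_product]
    simp only
    rw [← Finset.sum_mul_sum, iha hQa, ihb hQb]
    push_cast
    rw [div_mul_div_comm]

theorem JQ_ge {Q z : ℕ} (hQ : Squarefree Q) (hQ0 : 0 < Q) (hz : 1 ≤ z) :
    (Q.totient : ℝ) / Q * (Real.log z / 2) ≤ JQ Q z := by
  have h1 := jlow z hz
  have h2 := h1.trans (J_le_mul Q z hQ0)
  rw [sum_inv_totient hQ] at h2
  have h3 : (0 : ℝ) < Q := by exact_mod_cast hQ0
  have h4 : (0 : ℝ) < Q.totient := by exact_mod_cast Nat.totient_pos.mpr hQ0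
  calc (Q.totient : ℝ) / Q * (Real.log z / 2) ≤ (Q.totient : ℝ) / Q * (Q / (Q.totient : ℝ) * JQ Q z) :=
        mul_le_mul_of_nonneg_left h2 (by positivity)
    _ = JQ Q z := by field_simp

end Pool.Agent.EMSeed
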