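import Mathlib
import Pool.Agent.Lib_MP_cde011_em.JLow

/-!
# Upper bound for primes in a residue class, with an absolute constant
-/

set_option autoImplicit false

namespace Pool.Agent.EMSeed

open Finset Pool.Agent.EC

/-- number of elements of a residue class in an interval -/
theorem count_class {r : ℕ} (hr : 0 < r) (N v : ℕ) :
    |(((Ioc 0 N).filter (fun x => x ≡ v [MOD r])).card : ℝ) - N / r| ≤ 1 := by
  have h := Nat.Ioc_filter_modEq_card 0 N hr v
  have hr' : (0 : ℚ) < r := by exact_mod_cast hr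
  set u : ℚ := ((N : ℚ) - v) / r with hu
  set w : ℚ := (((0 : ℕ) : ℚ) - v) / r with hw
  have huw : u - w = (N : ℚ) / r := by
    rw [hu, hw]
    field_simp
    push_cast
    ring
  have h1 : (((Ioc 0 N).filter (fun x => x ≡ v [MOD r])).card : ℚ) ≤ (N : ℚ) / r + 1 ∧
      (N : ℚ) / r - 1 ≤ (((Ioc 0 N).filter (fun x => x ≡ v [MOD r])).card : ℚ) := by
    have h2 : ((((Ioc 0 N).filter (fun x => x ≡ v [MOD r])).card : ℤ) : ℚ) =
        ((max (⌊u⌋ - ⌊w⌋) 0 : ℤ) : ℚ) := by rw [h]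
    have h3 := Int.floor_le u
    have h4 := Int.lt_floor_add_one u
    have h5 := Int.floor_le w
    have h6 := Int.lt_floor_add_one w
    have h7 : (0 : ℚ) ≤ (N : ℚ) / r := by positivity
    rw [Int.cast_natCast] at h2
    rw [h2]
    rw [← huw] at h7 ⊢
    push_cast
    constructor
    · apply max_le
      · linarith
      · linarith
    · exact le_trans (by linarith) (le_max_left _ _)
  obtain ⟨ha, hb⟩ := h1
  have ha' : (((Ioc 0 N).filter (fun x => x ≡ v [MOD r])).card : ℝ) ≤ (N : ℝ) / r + 1 := by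
    have := (Rat.cast_le (K := ℝ)).mpr ha
    push_cast at this
    exact this
  have hb' : (N : ℝ) / r - 1 ≤ (((Ioc 0 N).filter (fun x => x ≡ v [MOD r])).card : ℝ) := by
    have := (Rat.cast_le (K := ℝ)).mpr hb
    push_cast at this
    exact this
  rw [abs_le]
  constructor <;> linarith

/-- multiples of `d` in a residue class modulo `Q`, `d` prime to `Q` -/
theorem count_mult {Q d : ℕ} (hQ : 0 < Q) (hd : 0 < d) (hcop : d.Coprime Q) (N a : ℕ) :
    |(((Ioc 0 N).filter (fun x => x ≡ a [MOD Q] ∧ d ∣ x)).card : ℝ) - N / (Q * d : ℕ)| ≤ 1 := by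
  obtain ⟨k, hk1, hk2⟩ := Nat.chineseRemainder hcop.symm a 0
  have h1 : (Ioc 0 N).filter (fun x => x ≡ a [MOD Q] ∧ d ∣ x) =
      (Ioc 0 N).filter (fun x => x ≡ k [MOD (Q * d)]) := by
    apply Finset.filter_congr
    intro x _
    rw [← Nat.modEq_and_modEq_iff_modEq_mul hcop.symm]
    constructor
    · rintro ⟨h2, h3⟩
      exact ⟨h2.trans hk1.symm, ((Nat.modEq_zero_iff_dvd.mpr h3)).trans hk2.symm⟩
    · rintro ⟨h2, h3⟩
      exact ⟨h2.trans hk1, Nat.modEq_zero_iff_dvd.mp (h3.trans hk2)⟩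
  rw [h1]
  exact count_class (Nat.mul_pos hQ hd) N k

/-- Selberg's sieve for a fixed residue class -/
theorem sieve_class {Q z : ℕ} (hQ : Squarefree Q) (hQ0 : 0 < Q) (hz : 2 ≤ z) (N a : ℕ) :
    (((Ioc 0 N).filter (fun x => x.Prime ∧ x ≡ a [MOD Q])).card : ℝ) ≤
      (z : ℝ) ^ 2 + (z : ℝ) ^ 4 + 2 * N / (Q.totient * Real.log z) := by
  obtain ⟨lam, h1, h2, h3, h4, h5, h6⟩ := svq Q z hz
  have hlog : 0 < Real.log z := Real.log_pos (by exact_mod_cast (by omega : 1 < z))
  have hφ : (0 : ℝ) < Q.totient := by exact_mod_cast Nat.totient_pos.mpr hQ0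
  have hQr : (0 : ℝ) < Q := by exact_mod_cast hQ0
  -- small primes and large primes
  have hA : (((Ioc 0 N).filter (fun x => x.Prime ∧ x ≡ a [MOD Q])).card : ℝ) ≤
      (z : ℝ) ^ 2 + ∑ n ∈ (Ioc 0 N).filter (fun x => x ≡ a [MOD Q]), ∑ d ∈ n.divisors, lam d := by
    have hsub : (Ioc 0 N).filter (fun x => x.Prime ∧ x ≡ a [MOD Q]) ⊆
        Ioc 0 (z ^ 2) ∪ (Ioc 0 N).filter (fun x => (x.Prime ∧ x ≡ a [MOD Q]) ∧ z ^ 2 < x) := by
      intro x hx
      rw [mem_filter, mem_Ioc] at hx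
      rw [mem_union, mem_Ioc, mem_filter, mem_Ioc]
      by_cases hc : x ≤ z ^ 2
      · exact Or.inl ⟨hx.1.1, hc⟩
      · exact Or.inr ⟨hx.1, hx.2, by omega⟩
    have hcard := (Finset.card_le_card hsub).trans (Finset.card_union_le _ _)
    rw [Nat.card_Ioc, Nat.sub_zero] at hcard
    have hcard' : (((Ioc 0 N).filter (fun x => x.Prime ∧ x ≡ a [MOD Q])).card : ℝ) ≤ (z : ℝ) ^ 2 +
        (((Ioc 0 N).filter (fun x => (x.Prime ∧ x ≡ a [MOD Q]) ∧ z ^ 2 < x)).card : ℝ) := by
      exact_mod_cast hcard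
    refine hcard'.trans (add_le_add le_rfl ?_)
    have hone : (((Ioc 0 N).filter (fun x => (x.Prime ∧ x ≡ a [MOD Q]) ∧ z ^ 2 < x)).card : ℝ) =
        ∑ n ∈ (Ioc 0 N).filter (fun x => (x.Prime ∧ x ≡ a [MOD Q]) ∧ z ^ 2 < x),
          ∑ d ∈ n.divisors, lam d := by
      rw [Finset.card_eq_sum_ones]
      push_cast
      apply Finset.sum_congr rfl
      intro n hn
      rw [mem_filter] at hn
      rw [hn.2.1.1.divisors, Finset.sum_insert, Finset.sum_singleton, h1, h2 n hn.2.2, add_zero]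
      rw [Finset.mem_singleton]
      exact hn.2.1.1.one_lt.ne
    rw [hone]
    apply Finset.sum_le_sum_of_subset_of_nonneg
    · intro x hx
      rw [mem_filter] at hx ⊢
      exact ⟨hx.1, hx.2.1.2⟩
    · intro n hn _
      rw [mem_filter, mem_Ioc] at hn
      exact h5 n hn.1.1
  -- exchange
  have hB : ∑ n ∈ (Ioc 0 N).filter (fun x => x ≡ a [MOD Q]), ∑ d ∈ n.divisors, lam d =
      ∑ d ∈ Icc 1 (z ^ 2), lam d *
        (((Ioc 0 N).filter (fun x => x ≡ a [MOD Q] ∧ d ∣ x)).card : ℝ) := by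
    have e1 : ∀ n ∈ (Ioc 0 N).filter (fun x => x ≡ a [MOD Q]), ∑ d ∈ n.divisors, lam d =
        ∑ d ∈ Icc 1 (z ^ 2), if d ∣ n then lam d else 0 := by
      intro n hn
      rw [mem_filter, mem_Ioc] at hn
      rw [← Finset.sum_filter]
      symm
      apply Finset.sum_subset
      · intro d hd
        rw [mem_filter] at hd
        rw [Nat.mem_divisors]
        exact ⟨hd.2, by omega⟩
      · intro d hd hd2
        rw [Nat.mem_divisors] at hd
        apply h2
        by_contra hcon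
        apply hd2
        rw [mem_filter, mem_Icc]
        exact ⟨⟨Nat.pos_of_dvd_of_pos hd.1 hn.1.1, by omega⟩, hd.1⟩
    rw [Finset.sum_congr rfl e1, Finset.sum_comm]
    apply Finset.sum_congr rfl
    intro d _
    rw [← Finset.sum_filter, Finset.filter_filter, Finset.sum_const, nsmul_eq_mul, mul_comm]
  have hC : ∑ d ∈ Icc 1 (z ^ 2), lam d *
        (((Ioc 0 N).filter (fun x => x ≡ a [MOD Q] ∧ d ∣ x)).card : ℝ) ≤
      (N / Q) * (∑ d ∈ Icc 1 (z ^ 2), lam d / d) + ∑ d ∈ Icc 1 (z ^ 2), |lam d| := by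
    rw [Finset.mul_sum, ← Finset.sum_add_distrib]
    apply Finset.sum_le_sum
    intro d hd
    rw [mem_Icc] at hd
    by_cases hcop : d.Coprime Q
    · have h7 := count_mult hQ0 hd.1 hcop N a
      set c : ℝ := (((Ioc 0 N).filter (fun x => x ≡ a [MOD Q] ∧ d ∣ x)).card : ℝ) with hc
      have hd0 : (0 : ℝ) < d := by exact_mod_cast hd.1
      have h8 : lam d * (c - N / (Q * d : ℕ)) ≤ |lam d| := by
        calc lam d * (c - N / (Q * d : ℕ)) ≤ |lam d * (c - N / (Q * d : ℕ))| := le_abs_self _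
          _ = |lam d| * |c - N / (Q * d : ℕ)| := abs_mul _ _
          _ ≤ |lam d| * 1 := mul_le_mul_of_nonneg_left h7 (abs_nonneg _)
          _ = |lam d| := mul_one _
      have h9 : lam d * (N / ((Q * d : ℕ) : ℝ)) = N / Q * (lam d / d) := by
        push_cast
        field_simp
      rw [mul_sub, h9] at h8
      linarith
    · rw [h3 d hcop]
      simp
  rw [h6] at hC
  have hD := JQ_ge hQ hQ0 (show 1 ≤ z by omega)
  have hJ : 0 < JQ Q z := JQ_pos (by omega)
  have hE : (N : ℝ) / Q * (1 / JQ Q z) ≤ 2 * N / (Q.totient * Real.log z) := by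
    rw [div_mul_div_comm, mul_one, div_le_div_iff₀ (by positivity) (by positivity)]
    have h10 : (Q.totient : ℝ) * Real.log z ≤ 2 * (Q * JQ Q z) := by
      have h11 := mul_le_mul_of_nonneg_left hD hQr.le
      have h12 : (Q : ℝ) * ((Q.totient : ℝ) / Q * (Real.log z / 2)) =
          Q.totient * Real.log z / 2 := by field_simp
      rw [h12] at h11
      linarith
    have h13 := mul_le_mul_of_nonneg_left h10 (Nat.cast_nonneg N : (0 : ℝ) ≤ N)
    linarith
  rw [hB] at hA
  linarith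

end Pool.Agent.EMSeed
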