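import Mathlib

/-!
# Euclid-Mullin sequences with an arbitrary starting value: basic facts

`emProd m n` is the product `m * a_0 * ... * a_{n-1}` and `emTerm m n = a_n` is the least prime
factor of `1 + emProd m n`.
-/

set_option autoImplicit false

namespace Pool.Agent.EMSeed

/-- The product `P_n` of the Euclid-Mullin sequence with starting value `m`. -/
def emProd (m : ℕ) : ℕ → ℕ
  | 0 => m
  | n + 1 => emProd m n * (emProd m n + 1).minFac

/-- The `n`-th term of the Euclid-Mullin sequence with starting value `m`. -/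
def emTerm (m n : ℕ) : ℕ := (emProd m n + 1).minFac

theorem emProd_zero (m : ℕ) : emProd m 0 = m := rfl

theorem emProd_succ (m n : ℕ) : emProd m (n + 1) = emProd m n * emTerm m n := rfl

theorem emProd_pos {m : ℕ} (hm : 0 < m) (n : ℕ) : 0 < emProd m n := by
  induction n with
  | zero => exact hm
  | succ n ih =>
    rw [emProd_succ]
    exact Nat.mul_pos ih (Nat.minFac_pos _)

theorem emTerm_prime {m : ℕ} (hm : 0 < m) (n : ℕ) : (emTerm m n).Prime := by
  apply Nat.minFac_prime
  have := emProd_pos hm n
  omega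

theorem emTerm_dvd (m n : ℕ) : emTerm m n ∣ emProd m n + 1 := Nat.minFac_dvd _

theorem emTerm_le {m n q : ℕ} (hq : 2 ≤ q) (h : q ∣ emProd m n + 1) : emTerm m n ≤ q :=
  Nat.minFac_le_of_dvd hq h

/-- the cofactor -/
def cof (m n : ℕ) : ℕ := ∏ i ∈ Finset.range n, emTerm m i

theorem emProd_eq (m n : ℕ) : emProd m n = m * cof m n := by
  induction n with
  | zero => simp [cof, emProd_zero]
  | succ n ih => rw [emProd_succ, ih, cof, cof, Finset.prod_range_succ, mul_assoc]

theorem emTerm_dvd_cof {m i n : ℕ} (h : i < n) : emTerm m i ∣ cof m n :=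
  Finset.dvd_prod_of_mem _ (Finset.mem_range.mpr h)

theorem emTerm_dvd_emProd {m i n : ℕ} (h : i < n) : emTerm m i ∣ emProd m n := by
  rw [emProd_eq]
  exact (emTerm_dvd_cof h).mul_left _

theorem emTerm_ne_of_lt {m : ℕ} (hm : 0 < m) {i j : ℕ} (h : i < j) : emTerm m i ≠ emTerm m j := by
  intro he
  have h1 : emTerm m i ∣ emProd m j := emTerm_dvd_emProd h
  have h2 : emTerm m i ∣ emProd m j + 1 := by rw [he]; exact emTerm_dvd m j
  have h3 : emTerm m i ∣ 1 := (Nat.dvd_add_right h1).mp h2
  exact (emTerm_prime hm i).one_lt.ne' (Nat.dvd_one.mp h3)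

theorem emTerm_injective {m : ℕ} (hm : 0 < m) : Function.Injective (emTerm m) := by
  intro i j hij
  rcases lt_trichotomy i j with h | h | h
  · exact absurd hij (emTerm_ne_of_lt hm h)
  · exact h
  · exact absurd hij.symm (emTerm_ne_of_lt hm h)

theorem exists_lt_emTerm {m : ℕ} (hm : 0 < m) (y : ℕ) : ∃ n, y < emTerm m n := by
  by_contra hcon
  push Not at hcon
  have h1 : Set.Infinite (Set.range (emTerm m)) := Set.infinite_range_of_injective (emTerm_injective hm)
  apply h1
  apply (Set.finite_Iic y).subset
  rintro _ ⟨n, rfl⟩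
  exact hcon n

/-- the first index at which the term exceeds the level `y` -/
noncomputable def lev (y m : ℕ) : ℕ := sInf {n | y < emTerm m n}

theorem lev_spec {m : ℕ} (hm : 0 < m) (y : ℕ) : y < emTerm m (lev y m) :=
  Nat.sInf_mem (exists_lt_emTerm hm y)

theorem le_of_lt_lev {m y i : ℕ} (h : i < lev y m) : emTerm m i ≤ y := by
  have := Nat.notMem_of_lt_sInf h
  simpa using this

theorem lev_le {m y n : ℕ} (h : y < emTerm m n) : lev y m ≤ n := Nat.sInf_le h

theorem lev_eq {m y n : ℕ} (h : y < emTerm m n) (h' : ∀ i < n, emTerm m i ≤ y) : lev y m = n := by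
  apply le_antisymm (lev_le h)
  by_contra hcon
  push Not at hcon
  have hmem : lev y m ∈ {n | y < emTerm m n} := Nat.sInf_mem ⟨n, h⟩
  exact absurd (h' _ hcon) (not_le.mpr hmem)

theorem lev_mono {m : ℕ} (hm : 0 < m) {y y' : ℕ} (h : y ≤ y') : lev y m ≤ lev y' m :=
  lev_le (lt_of_le_of_lt h (lev_spec hm y'))

/-- the product at which the truncated sequence stops -/
noncomputable def stP (y m : ℕ) : ℕ := emProd m (lev y m)

/-- no prime up to `y` divides `stP y m + 1` -/
theorem not_dvd_stP {m : ℕ} (hm : 0 < m) {y q : ℕ} (hq : 2 ≤ q) (hy : q ≤ y) :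
    ¬ q ∣ stP y m + 1 := by
  intro h
  have h1 := emTerm_le hq h
  have h2 := lev_spec hm y
  unfold stP at h
  omega

/-- the truncated sequence depends only on the residue modulo the primorial -/
theorem agree {y m m' : ℕ} (hm : 0 < m) (hm' : 0 < m') (h : m ≡ m' [MOD primorial y]) :
    ∀ n ≤ lev y m, (∀ i < n, emTerm m' i = emTerm m i) := by
  intro n
  induction n with
  | zero => intro _ i hi; omega
  | succ n ih =>
    intro hn i hi
    have ih' := ih (by omega)
    rcases Nat.lt_succ_iff_lt_or_eq.mp hi with h1 | h1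
    · exact ih' i h1
    · subst h1
      have hc : cof m' i = cof m i := Finset.prod_congr rfl fun j hj => ih' j (Finset.mem_range.mp hj)
      have hmod : emProd m i + 1 ≡ emProd m' i + 1 [MOD primorial y] := by
        rw [emProd_eq, emProd_eq, hc]
        exact Nat.ModEq.add_right _ (Nat.ModEq.mul_right _ h)
      have hdv : ∀ r : ℕ, r.Prime → r ≤ y → (r ∣ emProd m i + 1 ↔ r ∣ emProd m' i + 1) := by
        intro r hr hry
        have hrd : r ∣ primorial y := hr.dvd_primorial_iff.mpr hry
        exact (hmod.dvd_iff hrd)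
      have hp1 := emTerm_prime hm i
      have hp2 := emTerm_prime hm' i
      have hle : emTerm m i ≤ y := le_of_lt_lev (by omega)
      have h1 : emTerm m' i ≤ emTerm m i :=
        emTerm_le hp1.two_le ((hdv _ hp1 hle).mp (emTerm_dvd m i))
      have h2 : emTerm m i ≤ emTerm m' i :=
        emTerm_le hp2.two_le ((hdv _ hp2 (h1.trans hle)).mpr (emTerm_dvd m' i))
      omega

theorem lev_congr {y m m' : ℕ} (hm : 0 < m) (hm' : 0 < m') (h : m ≡ m' [MOD primorial y]) :
    lev y m' = lev y m := by
  have h1 := agree hm hm' h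
  have h2 := agree hm' hm h.symm
  apply lev_eq
  · by_contra hcon
    push Not at hcon
    have hlt : lev y m < lev y m' := by
      by_contra hc
      push Not at hc
      rcases Nat.lt_or_eq_of_le hc with h3 | h3
      · have := lev_spec hm' y
        rw [h1 (lev y m) le_rfl _ h3] at this
        exact absurd (le_of_lt_lev h3) (not_le.mpr this)
      · have := lev_spec hm' y
        rw [h3] at this
        omega
    have := h2 (lev y m') le_rfl _ hlt
    have h4 := lev_spec hm y
    omega
  · intro i hi
    rw [h1 (lev y m) le_rfl i hi]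
    exact le_of_lt_lev hi

theorem terms_congr {y m m' : ℕ} (hm : 0 < m) (hm' : 0 < m') (h : m ≡ m' [MOD primorial y]) :
    ∀ i < lev y m, emTerm m' i = emTerm m i := agree hm hm' h _ le_rfl

theorem cof_congr {y m m' : ℕ} (hm : 0 < m) (hm' : 0 < m') (h : m ≡ m' [MOD primorial y]) :
    cof m' (lev y m') = cof m (lev y m) := by
  rw [lev_congr hm hm' h]
  exact Finset.prod_congr rfl fun j hj => terms_congr hm hm' h j (Finset.mem_range.mp hj)

/-- if `y + 1` is not prime, nothing changes from level `y` to level `y + 1` -/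
theorem lev_succ_of_not_prime {m : ℕ} (hm : 0 < m) {y : ℕ} (hy : ¬ (y + 1).Prime) :
    lev (y + 1) m = lev y m := by
  apply lev_eq
  · have h1 := lev_spec hm y
    have h2 := emTerm_prime hm (lev y m)
    rcases Nat.lt_or_ge (y + 1) (emTerm m (lev y m)) with h | h
    · exact h
    · have : emTerm m (lev y m) = y + 1 := by omega
      rw [this] at h2
      exact absurd h2 hy
  · intro i hi
    have := le_of_lt_lev hi
    omega

/-- if the prime `y + 1` does not divide `stP y m + 1`, nothing changes -/
theorem lev_succ_of_not_dvd {m : ℕ} (hm : 0 < m) {y : ℕ} (hy : ¬ (y + 1) ∣ stP y m + 1) :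
    lev (y + 1) m = lev y m := by
  apply lev_eq
  · have h1 := lev_spec hm y
    rcases Nat.lt_or_ge (y + 1) (emTerm m (lev y m)) with h | h
    · exact h
    · have : emTerm m (lev y m) = y + 1 := by omega
      have h3 := emTerm_dvd m (lev y m)
      rw [this] at h3
      exact absurd h3 hy
  · intro i hi
    have := le_of_lt_lev hi
    omega

/-- if the prime `y + 1` divides `stP y m + 1`, it is the next term -/
theorem emTerm_of_dvd {m : ℕ} (hm : 0 < m) {y : ℕ} (hp : (y + 1).Prime) (hy : (y + 1) ∣ stP y m + 1) :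
    emTerm m (lev y m) = y + 1 := by
  have h1 := lev_spec hm y
  have h2 := emTerm_le hp.two_le hy
  omega

end Pool.Agent.EMSeed
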