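import Mathlib
import Pool.Agent.Lib_MP_cde011_em.Seq

/-!
# The potential

`wt p y m` is `0` if `p` divides `m` or `p` was used below level `y`, and `2 ^ (-k)` otherwise, `k` the
number of used primes at most `p`. `wc p y d m` is `wt p y m` if `d * stP y m = -1` modulo `p` and
`0` otherwise.
-/

set_option autoImplicit false

namespace Pool.Agent.EMSeed

open Finset

/-- number of terms at most `p` used below level `y` -/
noncomputable def kk (p y m : ℕ) : ℕ := ((range (lev y m)).filter (fun i => emTerm m i ≤ p)).card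

/-- `p` does not divide `m` and `p` is not used below level `y` -/
def Alive (p y m : ℕ) : Prop := ¬ p ∣ m ∧ ∀ i < lev y m, emTerm m i ≠ p

open Classical in
/-- the potential -/
noncomputable def wt (p y m : ℕ) : ℝ := if Alive p y m then (1 / 2 : ℝ) ^ kk p y m else 0

open Classical in
/-- the part of the potential with prescribed class -/
noncomputable def wc (p y : ℕ) (d : ZMod p) (m : ℕ) : ℝ :=
  if d * (stP y m : ZMod p) + 1 = 0 then wt p y m else 0

theorem wt_nonneg (p y m : ℕ) : 0 ≤ wt p y m := by
  unfold wt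
  split_ifs
  · positivity
  · exact le_rfl

theorem wc_nonneg (p y : ℕ) (d : ZMod p) (m : ℕ) : 0 ≤ wc p y d m := by
  unfold wc
  split_ifs
  · exact wt_nonneg _ _ _
  · exact le_rfl

theorem kk_le {p y m : ℕ} (hm : 0 < m) : kk p y m ≤ p + 1 := by
  unfold kk
  have h : ((range (lev y m)).filter (fun i => emTerm m i ≤ p)).card ≤ (range (p + 1)).card := by
    apply Finset.card_le_card_of_injOn (emTerm m)
    · intro i hi
      simp only [coe_filter, mem_range, Set.mem_setOf_eq] at hi
      simp only [coe_range, Set.mem_Iio]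
      omega
    · exact (emTerm_injective hm).injOn
  simpa using h

theorem le_wt {p y m : ℕ} (hm : 0 < m) (h : Alive p y m) : (1 / 2 : ℝ) ^ (p + 1) ≤ wt p y m := by
  unfold wt
  rw [if_pos h]
  exact pow_le_pow_of_le_one (by norm_num) (by norm_num) (kk_le hm)

theorem alive_congr {p y m m' : ℕ} (hpy : p ≤ y) (hp : p.Prime) (hm : 0 < m) (hm' : 0 < m')
    (h : m ≡ m' [MOD primorial y]) : Alive p y m' ↔ Alive p y m := by
  have hd : p ∣ m ↔ p ∣ m' := h.dvd_iff (hp.dvd_primorial_iff.mpr hpy)
  have h1 := lev_congr hm hm' h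
  have h2 := terms_congr hm hm' h
  unfold Alive
  rw [hd, h1]
  constructor
  · rintro ⟨ha, hb⟩
    exact ⟨ha, fun i hi => by rw [← h2 i hi]; exact hb i hi⟩
  · rintro ⟨ha, hb⟩
    exact ⟨ha, fun i hi => by rw [h2 i hi]; exact hb i hi⟩

theorem kk_congr {p y m m' : ℕ} (hm : 0 < m) (hm' : 0 < m')
    (h : m ≡ m' [MOD primorial y]) : kk p y m' = kk p y m := by
  have h1 := lev_congr hm hm' h
  have h2 := terms_congr hm hm' h
  unfold kk
  rw [h1]
  congr 1
  apply Finset.filter_congr
  intro i hi
  rw [h2 i (mem_range.mp hi)]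

theorem wt_congr {p y m m' : ℕ} (hpy : p ≤ y) (hp : p.Prime) (hm : 0 < m) (hm' : 0 < m')
    (h : m ≡ m' [MOD primorial y]) : wt p y m' = wt p y m := by
  unfold wt
  rw [kk_congr hm hm' h]
  have := alive_congr hpy hp hm hm' h
  by_cases hA : Alive p y m
  · rw [if_pos hA, if_pos (this.mpr hA)]
  · rw [if_neg hA, if_neg (fun hc => hA (this.mp hc))]

theorem stP_eq (y m : ℕ) : stP y m = m * cof m (lev y m) := emProd_eq _ _

theorem stP_congr {y m m' : ℕ} (hm : 0 < m) (hm' : 0 < m')
    (h : m ≡ m' [MOD primorial y]) : stP y m ≡ stP y m' [MOD primorial y] := by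
  rw [stP_eq, stP_eq, cof_congr hm hm' h]
  exact Nat.ModEq.mul_right _ h

theorem wc_congr {p y m m' : ℕ} (hpy : p ≤ y) (hp : p.Prime) (hm : 0 < m) (hm' : 0 < m')
    (h : m ≡ m' [MOD primorial y]) (d : ZMod p) : wc p y d m' = wc p y d m := by
  unfold wc
  rw [wt_congr hpy hp hm hm' h]
  have h1 : stP y m ≡ stP y m' [MOD p] :=
    (stP_congr hm hm' h).of_dvd (hp.dvd_primorial_iff.mpr hpy)
  rw [(ZMod.natCast_eq_natCast_iff _ _ _).mpr h1]

/-- for alive `m` the product `stP` is prime to `p` -/
theorem not_dvd_stP_of_alive {p y m : ℕ} (hp : p.Prime) (hm : 0 < m) (h : Alive p y m) :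
    ¬ p ∣ stP y m := by
  rw [stP_eq]
  intro hd
  rcases (hp.dvd_mul).mp hd with h1 | h1
  · exact h.1 h1
  · unfold cof at h1
    obtain ⟨i, hi, hi2⟩ := (Prime.dvd_finset_prod_iff hp.prime _).mp h1
    have := (Nat.prime_dvd_prime_iff_eq hp (emTerm_prime hm i)).mp hi2
    exact h.2 i (mem_range.mp hi) this.symm

/-- the parts of the potential over the units sum to the potential -/
theorem sum_wc {p y m : ℕ} (hp : p.Prime) (hm : 0 < m) [Fact p.Prime] :
    ∑ d ∈ (univ : Finset (ZMod p)).filter (fun d => d ≠ 0), wc p y d m = wt p y m := by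
  by_cases hA : Alive p y m
  · have h1 : (stP y m : ZMod p) ≠ 0 := by
      intro hc
      exact not_dvd_stP_of_alive hp hm hA ((ZMod.natCast_eq_zero_iff _ _).mp hc)
    rw [Finset.sum_eq_single (-(stP y m : ZMod p)⁻¹)]
    · unfold wc
      rw [if_pos]
      rw [neg_mul, inv_mul_cancel₀ h1, neg_add_cancel]
    · intro d _ hd
      unfold wc
      rw [if_neg]
      intro hc
      apply hd
      have : d * (stP y m : ZMod p) = -1 := eq_neg_of_add_eq_zero_left hc
      rw [← mul_inv_cancel_right₀ h1 d, this, neg_mul, one_mul]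
    · intro hc
      exfalso
      apply hc
      rw [mem_filter]
      exact ⟨mem_univ _, neg_ne_zero.mpr (inv_ne_zero h1)⟩
  · have h0 : wt p y m = 0 := by unfold wt; rw [if_neg hA]
    rw [h0]
    apply Finset.sum_eq_zero
    intro d _
    unfold wc
    rw [h0]
    split_ifs <;> rfl

/-- one step, `y + 1` not prime -/
theorem wt_succ_of_not_prime {p y m : ℕ} (hm : 0 < m) (hy : ¬ (y + 1).Prime) :
    wt p (y + 1) m = wt p y m := by
  unfold wt Alive kk
  rw [lev_succ_of_not_prime hm hy]

theorem wc_succ_of_not_prime {p y m : ℕ} (hm : 0 < m) (hy : ¬ (y + 1).Prime) (d : ZMod p) :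
    wc p (y + 1) d m = wc p y d m := by
  unfold wc stP
  rw [wt_succ_of_not_prime hm hy, lev_succ_of_not_prime hm hy]

theorem wt_succ_of_not_dvd {p y m : ℕ} (hm : 0 < m) (hy : ¬ (y + 1) ∣ stP y m + 1) :
    wt p (y + 1) m = wt p y m := by
  unfold wt Alive kk
  rw [lev_succ_of_not_dvd hm hy]

theorem wc_succ_of_not_dvd {p y m : ℕ} (hm : 0 < m) (hy : ¬ (y + 1) ∣ stP y m + 1) (d : ZMod p) :
    wc p (y + 1) d m = wc p y d m := by
  have h := lev_succ_of_not_dvd hm hy
  unfold wc
  rw [wt_succ_of_not_dvd hm hy]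
  unfold stP
  rw [h]

theorem alive_mono {p y y' m : ℕ} (hm : 0 < m) (h : y ≤ y') (hA : Alive p y' m) : Alive p y m :=
  ⟨hA.1, fun i hi => hA.2 i (lt_of_lt_of_le hi (lev_mono hm h))⟩

theorem kk_mono {p y y' m : ℕ} (hm : 0 < m) (h : y ≤ y') : kk p y m ≤ kk p y' m := by
  unfold kk
  apply Finset.card_le_card
  apply Finset.filter_subset_filter
  intro i hi
  rw [mem_range] at hi ⊢
  exact lt_of_lt_of_le hi (lev_mono hm h)

theorem wt_anti {p y y' m : ℕ} (hm : 0 < m) (h : y ≤ y') : wt p y' m ≤ wt p y m := by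
  by_cases hA : Alive p y' m
  · unfold wt
    rw [if_pos hA, if_pos (alive_mono hm h hA)]
    exact pow_le_pow_of_le_one (by norm_num) (by norm_num) (kk_mono hm h)
  · have : wt p y' m = 0 := by unfold wt; rw [if_neg hA]
    rw [this]
    exact wt_nonneg _ _ _

/-- the main step: if the prime `q = y + 1` is used and `q * stP = -1` modulo `p`, then the
potential is at least halved -/
theorem wt_succ_le {p y m : ℕ} (hp : p.Prime) (hpy : p ≤ y) (hm : 0 < m) (hq : (y + 1).Prime)
    (hy : (y + 1) ∣ stP y m + 1) :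
    wt p (y + 1) m ≤ wt p y m - (1 / 2) * wc p y ((y + 1 : ℕ) : ZMod p) m := by
  by_cases hc : (((y + 1 : ℕ) : ZMod p)) * (stP y m : ZMod p) + 1 = 0
  · have hwc : wc p y ((y + 1 : ℕ) : ZMod p) m = wt p y m := by
      unfold wc
      rw [if_pos hc]
    rw [hwc]
    by_cases hA : Alive p (y + 1) m
    · have hA' := alive_mono hm (Nat.le_succ y) hA
      have hterm := emTerm_of_dvd hm hq hy
      -- the next term
      have hnext : emTerm m (lev y m + 1) ≤ p := by
        apply emTerm_le hp.two_le
        rw [emProd_succ, hterm]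
        have : ((((emProd m (lev y m)) * (y + 1) + 1 : ℕ)) : ZMod p) = 0 := by
          push_cast
          push_cast at hc
          unfold stP at hc
          rw [mul_comm]
          exact hc
        exact (ZMod.natCast_eq_zero_iff _ _).mp this
      have hlev : lev y m + 2 ≤ lev (y + 1) m := by
        by_contra hcon
        push Not at hcon
        have h1 : y + 1 < emTerm m (lev (y + 1) m) := lev_spec hm (y + 1)
        have h2 := lev_mono hm (Nat.le_succ y)
        have h3 : lev (y + 1) m = lev y m ∨ lev (y + 1) m = lev y m + 1 := by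
          have : lev y m ≤ lev (y + 1) m := h2
          omega
        rcases h3 with h3 | h3
        · rw [h3, hterm] at h1
          exact lt_irrefl _ h1
        · rw [h3] at h1
          omega
      have hk : kk p y m + 1 ≤ kk p (y + 1) m := by
        unfold kk
        have hsub : insert (lev y m + 1) ((range (lev y m)).filter (fun i => emTerm m i ≤ p)) ⊆
            (range (lev (y + 1) m)).filter (fun i => emTerm m i ≤ p) := by
          intro i hi
          rw [mem_insert] at hi
          rcases hi with rfl | hi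
          · rw [mem_filter, mem_range]
            exact ⟨by omega, hnext⟩
          · rw [mem_filter, mem_range] at hi ⊢
            exact ⟨by omega, hi.2⟩
        have hcard := Finset.card_le_card hsub
        rw [Finset.card_insert_of_notMem] at hcard
        · exact hcard
        · rw [mem_filter, mem_range]
          rintro ⟨h4, _⟩
          omega
      unfold wt
      rw [if_pos hA, if_pos hA']
      have h5 : (1 / 2 : ℝ) ^ kk p (y + 1) m ≤ (1 / 2 : ℝ) ^ (kk p y m + 1) :=
        pow_le_pow_of_le_one (by norm_num) (by norm_num) hk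
      rw [pow_succ] at h5
      linarith
    · have h0 : wt p (y + 1) m = 0 := by unfold wt; rw [if_neg hA]
      rw [h0]
      have := wt_nonneg p y m
      linarith
  · have hwc : wc p y ((y + 1 : ℕ) : ZMod p) m = 0 := by
      unfold wc
      rw [if_neg hc]
    rw [hwc, mul_zero, sub_zero]
    exact wt_anti hm (Nat.le_succ y)

end Pool.Agent.EMSeed
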