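import Mathlib
import Pool.Agent.Lib_MP_cde011_em.State

/-!
# Averages of the potential over the residue classes modulo the primorial

`om β y m` is the weight of the class of `m` modulo the primorial of `y`: the product over the primes
`q ≤ y` of `β q` if `q` does not divide `m` and `1 - (q - 1) * β q` if it does.
-/

set_option autoImplicit false

namespace Pool.Agent.EMSeed

open Finset

/-- local weight -/
noncomputable def uu (β : ℕ → ℝ) (q m : ℕ) : ℝ := if q ∣ m then 1 - ((q : ℝ) - 1) * β q else β q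

/-- weight of a class modulo the primorial -/
noncomputable def om (β : ℕ → ℝ) (y m : ℕ) : ℝ := ∏ q ∈ Nat.primesLE y, uu β q m

/-- average potential -/
noncomputable def WW (β : ℕ → ℝ) (p y : ℕ) : ℝ :=
  ∑ r ∈ range (primorial y), om β y (r + 1) * wt p y (r + 1)

/-- average of the part with prescribed class -/
noncomputable def WC (β : ℕ → ℝ) (p y : ℕ) (d : ZMod p) : ℝ :=
  ∑ r ∈ range (primorial y), om β y (r + 1) * wc p y d (r + 1)

/-- admissible local weights -/
def Adm (β : ℕ → ℝ) : Prop := ∀ q : ℕ, q.Prime → 0 ≤ β q ∧ ((q : ℝ) - 1) * β q ≤ 1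

theorem uu_nonneg {β : ℕ → ℝ} (hβ : Adm β) {q : ℕ} (hq : q.Prime) (m : ℕ) : 0 ≤ uu β q m := by
  unfold uu
  split_ifs
  · have := (hβ q hq).2
    linarith
  · exact (hβ q hq).1

theorem om_nonneg {β : ℕ → ℝ} (hβ : Adm β) (y m : ℕ) : 0 ≤ om β y m := by
  unfold om
  apply Finset.prod_nonneg
  intro q hq
  exact uu_nonneg hβ (Nat.mem_primesLE.mp hq).2 m

theorem uu_congr (β : ℕ → ℝ) {q m m' : ℕ} (h : m ≡ m' [MOD q]) : uu β q m' = uu β q m := by
  unfold uu
  have := h.dvd_iff (dvd_refl q)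
  by_cases hd : q ∣ m
  · rw [if_pos hd, if_pos (this.mp hd)]
  · rw [if_neg hd, if_neg (fun hc => hd (this.mpr hc))]

theorem om_congr (β : ℕ → ℝ) {y m m' : ℕ} (h : m ≡ m' [MOD primorial y]) :
    om β y m' = om β y m := by
  unfold om
  apply Finset.prod_congr rfl
  intro q hq
  have hq' := Nat.mem_primesLE.mp hq
  exact uu_congr β (h.of_dvd (hq'.2.dvd_primorial_iff.mpr hq'.1))

theorem WW_nonneg {β : ℕ → ℝ} (hβ : Adm β) (p y : ℕ) : 0 ≤ WW β p y :=
  Finset.sum_nonneg fun _ _ => mul_nonneg (om_nonneg hβ _ _) (wt_nonneg _ _ _)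

theorem WC_nonneg {β : ℕ → ℝ} (hβ : Adm β) (p y : ℕ) (d : ZMod p) : 0 ≤ WC β p y d :=
  Finset.sum_nonneg fun _ _ => mul_nonneg (om_nonneg hβ _ _) (wc_nonneg _ _ _ _)

theorem sum_WC {β : ℕ → ℝ} {p : ℕ} (hp : p.Prime) [Fact p.Prime] (y : ℕ) :
    ∑ d ∈ (univ : Finset (ZMod p)).filter (fun d => d ≠ 0), WC β p y d = WW β p y := by
  unfold WC WW
  rw [Finset.sum_comm]
  apply Finset.sum_congr rfl
  intro r _
  rw [← Finset.mul_sum, sum_wc hp (Nat.succ_pos r)]

theorem primesLE_succ_of_prime {y : ℕ} (h : (y + 1).Prime) :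
    Nat.primesLE (y + 1) = insert (y + 1) (Nat.primesLE y) := by
  ext q
  rw [mem_insert, Nat.mem_primesLE, Nat.mem_primesLE]
  constructor
  · rintro ⟨h1, h2⟩
    rcases Nat.lt_or_eq_of_le h1 with h3 | h3
    · exact Or.inr ⟨by omega, h2⟩
    · exact Or.inl h3
  · rintro (rfl | ⟨h1, h2⟩)
    · exact ⟨le_rfl, h⟩
    · exact ⟨by omega, h2⟩

theorem primesLE_succ_of_not_prime {y : ℕ} (h : ¬ (y + 1).Prime) :
    Nat.primesLE (y + 1) = Nat.primesLE y := by
  ext q
  rw [Nat.mem_primesLE, Nat.mem_primesLE]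
  constructor
  · rintro ⟨h1, h2⟩
    rcases Nat.lt_or_eq_of_le h1 with h3 | h3
    · exact ⟨by omega, h2⟩
    · rw [h3] at h2
      exact absurd h2 h
  · rintro ⟨h1, h2⟩
    exact ⟨by omega, h2⟩

theorem not_mem_primesLE (y : ℕ) : (y + 1) ∉ Nat.primesLE y := by
  rw [Nat.mem_primesLE]
  rintro ⟨h, _⟩
  omega

theorem primorial_succ_of_prime {y : ℕ} (h : (y + 1).Prime) :
    primorial (y + 1) = primorial y * (y + 1) := by
  rw [primorial_eq_prod_primesLE, primorial_eq_prod_primesLE, primesLE_succ_of_prime h,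
    Finset.prod_insert (not_mem_primesLE y), mul_comm]

theorem primorial_succ_of_not_prime {y : ℕ} (h : ¬ (y + 1).Prime) :
    primorial (y + 1) = primorial y := by
  rw [primorial_eq_prod_primesLE, primorial_eq_prod_primesLE, primesLE_succ_of_not_prime h]

theorem om_succ_of_prime (β : ℕ → ℝ) {y : ℕ} (h : (y + 1).Prime) (m : ℕ) :
    om β (y + 1) m = om β y m * uu β (y + 1) m := by
  unfold om
  rw [primesLE_succ_of_prime h, Finset.prod_insert (not_mem_primesLE y), mul_comm]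

theorem om_succ_of_not_prime (β : ℕ → ℝ) {y : ℕ} (h : ¬ (y + 1).Prime) (m : ℕ) :
    om β (y + 1) m = om β y m := by
  unfold om
  rw [primesLE_succ_of_not_prime h]

theorem WW_succ_of_not_prime (β : ℕ → ℝ) (p : ℕ) {y : ℕ} (h : ¬ (y + 1).Prime) :
    WW β p (y + 1) = WW β p y := by
  unfold WW
  rw [primorial_succ_of_not_prime h]
  apply Finset.sum_congr rfl
  intro r _
  rw [om_succ_of_not_prime β h, wt_succ_of_not_prime (Nat.succ_pos r) h]

theorem WC_succ_of_not_prime (β : ℕ → ℝ) (p : ℕ) {y : ℕ} (h : ¬ (y + 1).Prime) (d : ZMod p) :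
    WC β p (y + 1) d = WC β p y d := by
  unfold WC
  rw [primorial_succ_of_not_prime h]
  apply Finset.sum_congr rfl
  intro r _
  rw [om_succ_of_not_prime β h, wc_succ_of_not_prime (Nat.succ_pos r) h]

theorem sum_range_mul' (f : ℕ → ℝ) (Q q : ℕ) :
    ∑ m ∈ range (Q * q), f m = ∑ r ∈ range Q, ∑ j ∈ range q, f (r + Q * j) := by
  induction q with
  | zero => simp
  | succ q ih =>
    rw [Nat.mul_succ, Finset.sum_range_add, ih, ← Finset.sum_add_distrib]
    apply Finset.sum_congr rfl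
    intro r _
    rw [Finset.sum_range_succ, add_comm (Q * q) r]

/-- a linear congruence has exactly one solution -/
theorem exists_lift {q Q A : ℕ} (hq : q.Prime) (hQ : Nat.Coprime Q q) (hA : Nat.Coprime A q)
    (a c : ℕ) : ∃ j₀ < q, ∀ j < q, (q ∣ (a + Q * j) * A + c ↔ j = j₀) := by
  haveI : Fact q.Prime := ⟨hq⟩
  have hQ0 : (Q : ZMod q) ≠ 0 := by
    intro h
    have := (ZMod.natCast_eq_zero_iff _ _).mp h
    exact (hq.coprime_iff_not_dvd.mp hQ.symm) this
  have hA0 : (A : ZMod q) ≠ 0 := by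
    intro h
    have := (ZMod.natCast_eq_zero_iff _ _).mp h
    exact (hq.coprime_iff_not_dvd.mp hA.symm) this
  refine ⟨((-(c : ZMod q) * (A : ZMod q)⁻¹ - a) * (Q : ZMod q)⁻¹).val, ZMod.val_lt _, ?_⟩
  intro j hj
  rw [← ZMod.natCast_eq_zero_iff]
  push_cast
  constructor
  · intro h
    have h1 : (j : ZMod q) = (-(c : ZMod q) * (A : ZMod q)⁻¹ - a) * (Q : ZMod q)⁻¹ := by
      field_simp
      linear_combination h
    rw [← h1, ZMod.val_natCast, Nat.mod_eq_of_lt hj]
  · intro h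
    have h1 : (j : ZMod q) = (-(c : ZMod q) * (A : ZMod q)⁻¹ - a) * (Q : ZMod q)⁻¹ := by
      rw [h, ZMod.natCast_zmod_val]
    rw [h1]
    field_simp
    ring

end Pool.Agent.EMSeed
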