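import Mathlib
import Pool.Agent.Lib_MP_cde011_em.Mass

/-!
# One prime at a time
-/

set_option autoImplicit false

namespace Pool.Agent.EMSeed

open Finset

theorem coprime_primorial {y : ℕ} (h : (y + 1).Prime) : Nat.Coprime (primorial y) (y + 1) := by
  rw [Nat.coprime_comm, h.coprime_iff_not_dvd, h.dvd_primorial_iff]
  omega

theorem sum_uu (β : ℕ → ℝ) {q Q : ℕ} (hq : q.Prime) (hQ : Nat.Coprime Q q) (a : ℕ) :
    ∑ j ∈ range q, uu β q (a + Q * j) = 1 := by
  obtain ⟨j₀, hj₀, h⟩ := exists_lift hq hQ (Nat.coprime_one_left q) a 0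
  have h1 : ∀ j ∈ range q, uu β q (a + Q * j) = β q + (if j = j₀ then 1 - (q : ℝ) * β q else 0) := by
    intro j hj
    have h2 := h j (mem_range.mp hj)
    rw [mul_one, add_zero] at h2
    unfold uu
    by_cases hc : j = j₀
    · rw [if_pos (h2.mpr hc), if_pos hc]
      ring
    · rw [if_neg (fun h3 => hc (h2.mp h3)), if_neg hc, add_zero]
  rw [Finset.sum_congr rfl h1, Finset.sum_add_distrib, Finset.sum_const, card_range,
    Finset.sum_ite_eq' (range q) j₀, if_pos (mem_range.mpr hj₀), nsmul_eq_mul]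
  ring

theorem coprime_cof {y m : ℕ} (hm : 0 < m) (h : (y + 1).Prime) :
    Nat.Coprime (cof m (lev y m)) (y + 1) := by
  unfold cof
  apply Nat.Coprime.prod_left
  intro i hi
  rw [Nat.coprime_primes (emTerm_prime hm i) h]
  have := le_of_lt_lev (mem_range.mp hi)
  omega

theorem modEq_lift (y r j : ℕ) : r + 1 ≡ r + 1 + primorial y * j [MOD primorial y] := by
  have h : r + 1 + 0 ≡ r + 1 + primorial y * j [MOD primorial y] :=
    Nat.ModEq.add_left _ ((Nat.modEq_zero_iff_dvd.mpr (dvd_mul_right _ _)).symm)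
  simpa using h

/-- the hitting lift -/
theorem exists_hit {y : ℕ} (h : (y + 1).Prime) (r : ℕ) : ∃ j₁ < y + 1, ∀ j < y + 1,
    ((y + 1) ∣ stP y (r + 1 + primorial y * j) + 1 ↔ j = j₁) := by
  obtain ⟨j₁, h1, h2⟩ := exists_lift h (coprime_primorial h) (coprime_cof (Nat.succ_pos r) h) (r + 1) 1
  refine ⟨j₁, h1, fun j hj => ?_⟩
  rw [stP_eq, cof_congr (Nat.succ_pos r) (by omega) (modEq_lift y r j)]
  exact h2 j hj

theorem uu_hit (β : ℕ → ℝ) {y m : ℕ} (h : (y + 1).Prime) (hd : (y + 1) ∣ stP y m + 1) :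
    uu β (y + 1) m = β (y + 1) := by
  unfold uu
  rw [if_neg]
  intro hc
  have h1 : (y + 1) ∣ stP y m := by
    rw [stP_eq]
    exact hc.mul_right _
  have h2 : (y + 1) ∣ 1 := (Nat.dvd_add_right h1).mp hd
  exact h.one_lt.ne' (Nat.dvd_one.mp h2)

theorem WW_split (β : ℕ → ℝ) (p : ℕ) {y : ℕ} (h : (y + 1).Prime) :
    WW β p (y + 1) = ∑ r ∈ range (primorial y), om β y (r + 1) *
      ∑ j ∈ range (y + 1), uu β (y + 1) (r + 1 + primorial y * j) *
        wt p (y + 1) (r + 1 + primorial y * j) := by
  unfold WW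
  rw [primorial_succ_of_prime h, sum_range_mul']
  apply Finset.sum_congr rfl
  intro r _
  rw [Finset.mul_sum]
  apply Finset.sum_congr rfl
  intro j _
  have : r + primorial y * j + 1 = r + 1 + primorial y * j := by ring
  rw [this, om_succ_of_prime β h, om_congr β (modEq_lift y r j)]
  ring

theorem WC_split (β : ℕ → ℝ) (p : ℕ) {y : ℕ} (h : (y + 1).Prime) (d : ZMod p) :
    WC β p (y + 1) d = ∑ r ∈ range (primorial y), om β y (r + 1) *
      ∑ j ∈ range (y + 1), uu β (y + 1) (r + 1 + primorial y * j) *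
        wc p (y + 1) d (r + 1 + primorial y * j) := by
  unfold WC
  rw [primorial_succ_of_prime h, sum_range_mul']
  apply Finset.sum_congr rfl
  intro r _
  rw [Finset.mul_sum]
  apply Finset.sum_congr rfl
  intro j _
  have : r + primorial y * j + 1 = r + 1 + primorial y * j := by ring
  rw [this, om_succ_of_prime β h, om_congr β (modEq_lift y r j)]
  ring

/-- the total potential drops by the part of the class of the new prime -/
theorem WW_succ_le {β : ℕ → ℝ} (hβ : Adm β) {p y : ℕ} (hp : p.Prime) (hpy : p ≤ y)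
    (h : (y + 1).Prime) :
    WW β p (y + 1) ≤ WW β p y - β (y + 1) / 2 * WC β p y ((y + 1 : ℕ) : ZMod p) := by
  rw [WW_split β p h]
  unfold WW WC
  rw [Finset.mul_sum, ← Finset.sum_sub_distrib]
  apply Finset.sum_le_sum
  intro r _
  have hinner : ∑ j ∈ range (y + 1), uu β (y + 1) (r + 1 + primorial y * j) *
        wt p (y + 1) (r + 1 + primorial y * j) ≤
      wt p y (r + 1) - β (y + 1) / 2 * wc p y ((y + 1 : ℕ) : ZMod p) (r + 1) := by
    obtain ⟨j₁, hj₁, hhit⟩ := exists_hit h r
    have h1 : ∀ j ∈ range (y + 1), uu β (y + 1) (r + 1 + primorial y * j) *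
        wt p (y + 1) (r + 1 + primorial y * j) ≤
        uu β (y + 1) (r + 1 + primorial y * j) * wt p y (r + 1) -
        (if j = j₁ then β (y + 1) / 2 * wc p y ((y + 1 : ℕ) : ZMod p) (r + 1) else 0) := by
      intro j hj
      have hmod := modEq_lift y r j
      have hw := wt_congr (m := r + 1) (m' := r + 1 + primorial y * j) hpy hp (by omega) (by omega) hmod
      have hwc := wc_congr (m := r + 1) (m' := r + 1 + primorial y * j) hpy hp (by omega) (by omega)
        hmod ((y + 1 : ℕ) : ZMod p)
      by_cases hc : j = j₁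
      · rw [if_pos hc]
        have hd := (hhit j (mem_range.mp hj)).mpr hc
        have hle := wt_succ_le hp hpy (m := r + 1 + primorial y * j) (by omega) h hd
        rw [hw, hwc] at hle
        rw [uu_hit β h hd]
        have hb := (hβ _ h).1
        have := mul_le_mul_of_nonneg_left hle hb
        linarith
      · rw [if_neg hc, sub_zero]
        have hd : ¬ (y + 1) ∣ stP y (r + 1 + primorial y * j) + 1 :=
          fun h3 => hc ((hhit j (mem_range.mp hj)).mp h3)
        rw [wt_succ_of_not_dvd (by omega) hd, hw]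
    refine (Finset.sum_le_sum h1).trans ?_
    rw [Finset.sum_sub_distrib, ← Finset.sum_mul, sum_uu β h (coprime_primorial h), one_mul,
      Finset.sum_ite_eq' (range (y + 1)) j₁, if_pos (mem_range.mpr hj₁)]
  have := mul_le_mul_of_nonneg_left hinner (om_nonneg hβ y (r + 1))
  linarith

/-- a prescribed part decreases slowly -/
theorem le_WC_succ {β : ℕ → ℝ} (hβ : Adm β) {p y : ℕ} (hp : p.Prime) (hpy : p ≤ y)
    (h : (y + 1).Prime) (d : ZMod p) :
    (1 - β (y + 1)) * WC β p y d ≤ WC β p (y + 1) d := by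
  rw [WC_split β p h]
  unfold WC
  rw [Finset.mul_sum]
  apply Finset.sum_le_sum
  intro r _
  have hinner : (1 - β (y + 1)) * wc p y d (r + 1) ≤
      ∑ j ∈ range (y + 1), uu β (y + 1) (r + 1 + primorial y * j) *
        wc p (y + 1) d (r + 1 + primorial y * j) := by
    obtain ⟨j₁, hj₁, hhit⟩ := exists_hit h r
    have h1 : ∀ j ∈ range (y + 1), 
        uu β (y + 1) (r + 1 + primorial y * j) * wc p y d (r + 1) -
        (if j = j₁ then β (y + 1) * wc p y d (r + 1) else 0) ≤
        uu β (y + 1) (r + 1 + primorial y * j) *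
        wc p (y + 1) d (r + 1 + primorial y * j) := by
      intro j hj
      have hmod := modEq_lift y r j
      have hwc := wc_congr (m := r + 1) (m' := r + 1 + primorial y * j) hpy hp (by omega) (by omega)
        hmod d
      by_cases hc : j = j₁
      · rw [if_pos hc]
        have hd := (hhit j (mem_range.mp hj)).mpr hc
        rw [uu_hit β h hd]
        have hb := (hβ _ h).1
        have := mul_nonneg hb (wc_nonneg p (y + 1) d (r + 1 + primorial y * j))
        linarith
      · rw [if_neg hc, sub_zero]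
        have hd : ¬ (y + 1) ∣ stP y (r + 1 + primorial y * j) + 1 :=
          fun h3 => hc ((hhit j (mem_range.mp hj)).mp h3)
        rw [wc_succ_of_not_dvd (by omega) hd, hwc]
    refine le_trans ?_ (Finset.sum_le_sum h1)
    rw [Finset.sum_sub_distrib, ← Finset.sum_mul, sum_uu β h (coprime_primorial h), one_mul,
      Finset.sum_ite_eq' (range (y + 1)) j₁, if_pos (mem_range.mpr hj₁)]
    exact le_of_eq (by ring)
  have := mul_le_mul_of_nonneg_left hinner (om_nonneg hβ y (r + 1))
  linarith

end Pool.Agent.EMSeed
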