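import Mathlib
import Pool.Agent.Lib_MP_cde011_em.Step

/-!
# Blocks of primes and the limit
-/

set_option autoImplicit false

namespace Pool.Agent.EMSeed

open Finset

/-- survival factor -/
noncomputable def surv (β : ℕ → ℝ) (y n : ℕ) : ℝ :=
  ∏ q ∈ (Ioc y n).filter Nat.Prime, (1 - β q)

/-- admissible with upper bound `2 / q` and lower bound `1 / q` -/
def Adm2 (β : ℕ → ℝ) : Prop :=
  ∀ q : ℕ, q.Prime → (1 : ℝ) / q ≤ β q ∧ ((q : ℝ) - 1) * β q ≤ 1

theorem Adm2.adm {β : ℕ → ℝ} (h : Adm2 β) : Adm β := fun q hq =>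
  ⟨le_trans (by positivity) (h q hq).1, (h q hq).2⟩

theorem Adm2.le_two_div {β : ℕ → ℝ} (h : Adm2 β) {q : ℕ} (hq : q.Prime) : β q ≤ 2 / q := by
  have h2 := (h q hq).2
  have h1 : (2 : ℝ) ≤ q := by exact_mod_cast hq.two_le
  have h3 : β q ≤ 1 / ((q : ℝ) - 1) := by
    rw [le_div_iff₀ (by linarith)]
    linarith [mul_comm ((q : ℝ) - 1) (β q)]
  refine h3.trans ?_
  rw [div_le_div_iff₀ (by linarith) (by linarith)]
  linarith

theorem Adm2.one_sub {β : ℕ → ℝ} (h : Adm2 β) {q : ℕ} (hq : q.Prime) (h4 : 4 < q) :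
    Real.exp (-(4 / (q : ℝ))) ≤ 1 - β q := by
  have h1 := h.le_two_div hq
  have hq' : (4 : ℝ) < q := by exact_mod_cast h4
  have h2 : 1 - 2 / (q : ℝ) ≤ 1 - β q := by linarith
  refine le_trans ?_ h2
  -- `exp (-2 t) ≤ 1 - t` for `0 ≤ t ≤ 1 / 2`
  have ht0 : 0 < 2 / (q : ℝ) := by positivity
  have ht1 : 2 / (q : ℝ) < 1 / 2 := by
    rw [div_lt_div_iff₀ (by linarith) (by norm_num)]
    linarith
  have key : 1 / (1 - 2 / (q : ℝ)) ≤ Real.exp (2 * (2 / (q : ℝ))) := by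
    have h5 : 1 / (1 - 2 / (q : ℝ)) ≤ 1 + 2 * (2 / (q : ℝ)) := by
      rw [div_le_iff₀ (by linarith)]
      nlinarith
    refine h5.trans ?_
    have := Real.add_one_le_exp (2 * (2 / (q : ℝ)))
    linarith
  have h6 : Real.exp (-(4 / (q : ℝ))) = (Real.exp (2 * (2 / (q : ℝ))))⁻¹ := by
    rw [← Real.exp_neg]
    congr 1
    ring
  rw [h6]
  rw [inv_le_comm₀ (Real.exp_pos _) (by linarith)]
  rw [← one_div]
  exact key

theorem Ioc_succ_prime {y n : ℕ} (hyn : y ≤ n) (h : (n + 1).Prime) :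
    (Ioc y (n + 1)).filter Nat.Prime = insert (n + 1) ((Ioc y n).filter Nat.Prime) := by
  ext q
  simp only [mem_filter, mem_Ioc, mem_insert]
  constructor
  · rintro ⟨⟨h1, h2⟩, h3⟩
    rcases Nat.lt_or_eq_of_le h2 with h4 | h4
    · exact Or.inr ⟨⟨h1, by omega⟩, h3⟩
    · exact Or.inl h4
  · rintro (rfl | ⟨⟨h1, h2⟩, h3⟩)
    · exact ⟨⟨by omega, le_rfl⟩, h⟩
    · exact ⟨⟨h1, by omega⟩, h3⟩

theorem Ioc_succ_not_prime {y n : ℕ} (h : ¬ (n + 1).Prime) :
    (Ioc y (n + 1)).filter Nat.Prime = (Ioc y n).filter Nat.Prime := by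
  ext q
  simp only [mem_filter, mem_Ioc]
  constructor
  · rintro ⟨⟨h1, h2⟩, h3⟩
    rcases Nat.lt_or_eq_of_le h2 with h4 | h4
    · exact ⟨⟨h1, by omega⟩, h3⟩
    · rw [h4] at h3
      exact absurd h3 h
  · rintro ⟨⟨h1, h2⟩, h3⟩
    exact ⟨⟨h1, by omega⟩, h3⟩

theorem not_mem_Ioc_filter (y n : ℕ) : (n + 1) ∉ (Ioc y n).filter Nat.Prime := by
  simp only [mem_filter, mem_Ioc]
  rintro ⟨⟨_, h⟩, _⟩
  omega

theorem factor_mem {β : ℕ → ℝ} (h : Adm2 β) {q : ℕ} (hq : q.Prime) (h4 : 4 < q) :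
    0 ≤ 1 - β q ∧ 1 - β q ≤ 1 :=
  ⟨le_trans (Real.exp_pos _).le (h.one_sub hq h4), by linarith [(h.adm q hq).1]⟩

theorem surv_nonneg {β : ℕ → ℝ} (h : Adm2 β) {y n : ℕ} (h4 : 4 ≤ y) : 0 ≤ surv β y n := by
  unfold surv
  apply Finset.prod_nonneg
  intro q hq
  rw [mem_filter, mem_Ioc] at hq
  exact (factor_mem h hq.2 (by omega)).1

theorem surv_anti {β : ℕ → ℝ} (h : Adm2 β) {y n z : ℕ} (h4 : 4 ≤ y) (hnz : n ≤ z) :
    surv β y z ≤ surv β y n := by
  unfold surv
  apply Finset.prod_le_prod_of_subset_of_le_one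
  · apply Finset.filter_subset_filter
    exact Finset.Ioc_subset_Ioc_right hnz
  · intro q hq
    rw [mem_filter, mem_Ioc] at hq
    exact (factor_mem h hq.2 (by omega)).1
  · intro q hq _
    rw [mem_filter, mem_Ioc] at hq
    exact (factor_mem h hq.2 (by omega)).2

theorem surv_ge {β : ℕ → ℝ} (h : Adm2 β) {y n : ℕ} (h4 : 4 ≤ y) :
    Real.exp (-(4 * ∑ q ∈ (Ioc y n).filter Nat.Prime, (1 : ℝ) / q)) ≤ surv β y n := by
  unfold surv
  rw [Finset.mul_sum, ← Finset.sum_neg_distrib, Real.exp_sum]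
  apply Finset.prod_le_prod
  · intro q _
    exact (Real.exp_pos _).le
  · intro q hq
    rw [mem_filter, mem_Ioc] at hq
    have := h.one_sub hq.2 (by omega)
    have h5 : -(4 * (1 / (q : ℝ))) = -(4 / (q : ℝ)) := by ring
    rw [h5]
    exact this

theorem le_WC_block {β : ℕ → ℝ} (hβ : Adm2 β) {p y : ℕ} (hp : p.Prime) (hpy : p ≤ y) (h4 : 4 ≤ y)
    (d : ZMod p) (n : ℕ) (hn : y ≤ n) : surv β y n * WC β p y d ≤ WC β p n d := by
  induction n, hn using Nat.le_induction with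
  | base => simp [surv]
  | succ n hn ih =>
    by_cases h : (n + 1).Prime
    · have h1 := le_WC_succ hβ.adm hp (hpy.trans hn) h d
      have h2 : surv β y (n + 1) = (1 - β (n + 1)) * surv β y n := by
        unfold surv
        rw [Ioc_succ_prime hn h, Finset.prod_insert (not_mem_Ioc_filter y n)]
      rw [h2, mul_assoc]
      exact (mul_le_mul_of_nonneg_left ih (factor_mem hβ h (by omega)).1).trans h1
    · have h2 : surv β y (n + 1) = surv β y n := by
        unfold surv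
        rw [Ioc_succ_not_prime h]
      rw [h2, WC_succ_of_not_prime β p h d]
      exact ih

theorem WW_block {β : ℕ → ℝ} (hβ : Adm2 β) {p y : ℕ} (hp : p.Prime) (hpy : p ≤ y) (h4 : 4 ≤ y)
    (z n : ℕ) (hn : y ≤ n) (hnz : n ≤ z) :
    WW β p n ≤ WW β p y - ∑ q ∈ (Ioc y n).filter Nat.Prime,
      β q / 2 * (surv β y z * WC β p y (q : ZMod p)) := by
  induction n, hn using Nat.le_induction with
  | base => simp
  | succ n hn ih =>
    have ih' := ih (by omega)
    by_cases h : (n + 1).Prime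
    · have h1 := WW_succ_le hβ.adm hp (hpy.trans hn) h
      have h2 := le_WC_block hβ hp hpy h4 ((n + 1 : ℕ) : ZMod p) n hn
      have h3 : surv β y z * WC β p y ((n + 1 : ℕ) : ZMod p) ≤
          surv β y n * WC β p y ((n + 1 : ℕ) : ZMod p) :=
        mul_le_mul_of_nonneg_right (surv_anti hβ h4 (by omega)) (WC_nonneg hβ.adm p y _)
      rw [Ioc_succ_prime hn h, Finset.sum_insert (not_mem_Ioc_filter y n)]
      have hb : 0 ≤ β (n + 1) / 2 := div_nonneg (hβ.adm _ h).1 (by norm_num)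
      have h5 := mul_le_mul_of_nonneg_left (h3.trans h2) hb
      linarith
    · rw [Ioc_succ_not_prime h, WW_succ_of_not_prime β p h]
      exact ih'

/-- the potential shrinks by a fixed factor over a block -/
theorem WW_block_le {β : ℕ → ℝ} (hβ : Adm2 β) {p y z : ℕ} (hp : p.Prime) [Fact p.Prime]
    (hpy : p ≤ y) (h4 : 4 ≤ y) (hyz : y ≤ z) {η C : ℝ}
    (hη : ∀ d : ZMod p, d ≠ 0 →
      η ≤ ∑ q ∈ (Ioc y z).filter (fun q : ℕ => q.Prime ∧ (q : ZMod p) = d), (1 : ℝ) / q)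
    (hC : ∑ q ∈ (Ioc y z).filter Nat.Prime, (1 : ℝ) / q ≤ C) (hη0 : 0 ≤ η) :
    WW β p z ≤ (1 - Real.exp (-(4 * C)) * η / 2) * WW β p y := by
  have h1 := WW_block hβ hp hpy h4 z z hyz le_rfl
  have hs : Real.exp (-(4 * C)) ≤ surv β y z :=
    le_trans (Real.exp_le_exp.mpr (by linarith)) (surv_ge hβ h4)
  have h2 : ∑ q ∈ (Ioc y z).filter Nat.Prime, β q * WC β p y (q : ZMod p) ≥ η * WW β p y := by
    have h3 : ∑ q ∈ (Ioc y z).filter Nat.Prime, β q * WC β p y (q : ZMod p) =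
        ∑ d ∈ (univ : Finset (ZMod p)).filter (fun d => d ≠ 0),
          ∑ q ∈ (Ioc y z).filter (fun q : ℕ => q.Prime ∧ (q : ZMod p) = d), β q * WC β p y d := by
      rw [← Finset.sum_fiberwise_of_maps_to (s := (Ioc y z).filter Nat.Prime)
        (t := (univ : Finset (ZMod p)).filter (fun d => d ≠ 0)) (g := fun q => (q : ZMod p))]
      · apply Finset.sum_congr rfl
        intro d _
        rw [Finset.filter_filter]
        apply Finset.sum_congr rfl
        intro q hq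
        rw [mem_filter] at hq
        rw [hq.2.2]
      · intro q hq
        rw [mem_filter, mem_Ioc] at hq
        rw [mem_filter]
        refine ⟨mem_univ _, ?_⟩
        intro hc
        have h5 := (ZMod.natCast_eq_zero_iff _ _).mp hc
        have h6 := (Nat.prime_dvd_prime_iff_eq hp hq.2).mp h5
        omega
    rw [h3, ← sum_WC hp y, Finset.mul_sum]
    apply Finset.sum_le_sum
    intro d hd
    rw [mem_filter] at hd
    rw [← Finset.sum_mul]
    apply mul_le_mul_of_nonneg_right _ (WC_nonneg hβ.adm p y d)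
    refine (hη d hd.2).trans ?_
    apply Finset.sum_le_sum
    intro q hq
    rw [mem_filter] at hq
    exact (hβ q hq.2.1).1
  have h5 : ∑ q ∈ (Ioc y z).filter Nat.Prime, β q / 2 * (surv β y z * WC β p y (q : ZMod p)) =
      surv β y z / 2 * ∑ q ∈ (Ioc y z).filter Nat.Prime, β q * WC β p y (q : ZMod p) := by
    rw [Finset.mul_sum]
    apply Finset.sum_congr rfl
    intro q _
    ring
  rw [h5] at h1
  have hW := WW_nonneg hβ.adm p y
  have h6 : Real.exp (-(4 * C)) / 2 * (η * WW β p y) ≤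
      surv β y z / 2 * ∑ q ∈ (Ioc y z).filter Nat.Prime, β q * WC β p y (q : ZMod p) := by
    apply mul_le_mul (by linarith) h2 (mul_nonneg hη0 hW)
    exact div_nonneg (surv_nonneg hβ h4) (by norm_num)
  nlinarith

end Pool.Agent.EMSeed
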