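import Mathlib

/-!
# Primes in residue classes: bounds of Mertens type from the behaviour of the L-series at 1
-/

set_option autoImplicit false

namespace Pool.Agent.EMSeed

open Finset ArithmeticFunction ArithmeticFunction.vonMangoldt Complex LSeries

/-- the value of the series at a real point -/
noncomputable def SS {q : ℕ} (a : ZMod q) (x : ℝ) : ℝ := ∑' n : ℕ, residueClass a n / (n : ℝ) ^ x

theorem summable_SS {q : ℕ} (a : ZMod q) {x : ℝ} (hx : 1 < x) :
    Summable fun n : ℕ => residueClass a n / (n : ℝ) ^ x :=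
  summable_real_of_abscissaOfAbsConv_lt <|
        (abscissaOfAbsConv_residueClass_le_one a).trans_lt <| mod_cast hx

theorem SS_nonneg {q : ℕ} (a : ZMod q) (x : ℝ) : 0 ≤ SS a x :=
  tsum_nonneg fun n => div_nonneg (residueClass_nonneg a n) (Real.rpow_nonneg (Nat.cast_nonneg n) x)

/-- two-sided bound near `1` -/
theorem SS_bounds {q : ℕ} [NeZero q] {a : ZMod q} (ha : IsUnit a) :
    ∃ C : ℝ, 0 ≤ C ∧ ∀ x : ℝ, x ∈ Set.Ioc (1 : ℝ) 2 →
      (q.totient : ℝ)⁻¹ / (x - 1) - C ≤ SS a x ∧ SS a x ≤ (q.totient : ℝ)⁻¹ / (x - 1) + C := by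
  have H {x : ℝ} (hx : 1 < x) :
      ∑' n : ℕ, residueClass a n / (n : ℝ) ^ x =
        (LFunctionResidueClassAux a x).re + (q.totient : ℝ)⁻¹ / (x - 1) := by
    refine ofReal_injective ?_
    simp only [ofReal_tsum, ofReal_div, ofReal_cpow (Nat.cast_nonneg _), ofReal_natCast,
      ofReal_add, ofReal_inv, ofReal_sub, ofReal_one]
    simp_rw [← LFunctionResidueClassAux_real ha hx,
      eqOn_LFunctionResidueClassAux ha <| Set.mem_ofPred.mpr (ofReal_re x ▸ hx), sub_add_cancel,
      LSeries, term]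
    refine tsum_congr fun n ↦ ?_
    split_ifs with hn
    · simp only [hn, residueClass_apply_zero, ofReal_zero, zero_div]
    · rfl
  have hcont : ContinuousOn (fun x : ℝ ↦ (LFunctionResidueClassAux a x).re) (Set.Icc 1 2) :=
    continuous_re.continuousOn.comp (t := Set.univ) (continuousOn_LFunctionResidueClassAux a)
      (fun ⦃x⦄ a ↦ trivial) |>.comp continuous_ofReal.continuousOn fun x hx ↦ by
        simpa only [Set.mem_ofPred_eq, ofReal_re] using hx.1
  obtain ⟨C, hC⟩ := isCompact_Icc.exists_bound_of_continuousOn hcont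
  refine ⟨C, le_trans (norm_nonneg _) (hC 1 ⟨le_rfl, one_le_two⟩), fun x hx => ?_⟩
  have h1 := hC x (Set.mem_Icc_of_Ioc hx)
  rw [Real.norm_eq_abs, abs_le] at h1
  unfold SS
  rw [H hx.1]
  constructor <;> linarith [h1.1, h1.2]

theorem one_div_le {n : ℕ} (hn : 0 < n) {N : ℕ} (hnN : n ≤ N) (hN : 1 ≤ Real.log N) :
    (1 : ℝ) / n ≤ Real.exp 1 * (1 / (n : ℝ) ^ (1 + 1 / Real.log N)) := by
  have hn' : (0 : ℝ) < n := by exact_mod_cast hn
  have hL : 0 < Real.log N := by linarith
  have h1 : (n : ℝ) ^ (1 / Real.log N) ≤ Real.exp 1 := by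
    rw [Real.rpow_def_of_pos hn']
    apply Real.exp_le_exp.mpr
    rw [mul_one_div, div_le_one hL]
    exact Real.log_le_log hn' (by exact_mod_cast hnN)
  rw [Real.rpow_add hn', Real.rpow_one]
  have h2 : 0 < (n : ℝ) ^ (1 / Real.log N) := Real.rpow_pos_of_pos hn' _
  rw [mul_one_div, div_le_div_iff₀ hn' (by positivity)]
  nlinarith

/-- upper bound for partial sums -/
theorem sum_le {q : ℕ} [NeZero q] {a : ZMod q} (ha : IsUnit a) :
    ∃ C : ℝ, 0 ≤ C ∧ ∀ N : ℕ, 1 ≤ Real.log N →
      ∑ n ∈ Ioc 0 N, residueClass a n / (n : ℝ) ≤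
        Real.exp 1 * ((q.totient : ℝ)⁻¹ * Real.log N + C) := by
  obtain ⟨C, hC0, hC⟩ := SS_bounds ha
  refine ⟨C, hC0, fun N hN => ?_⟩
  have hL : 0 < Real.log N := by linarith
  have h1 : ∑ n ∈ Ioc 0 N, residueClass a n / (n : ℝ) ≤
      Real.exp 1 * ∑ n ∈ Ioc 0 N, residueClass a n / (n : ℝ) ^ (1 + 1 / Real.log N) := by
    rw [Finset.mul_sum]
    apply Finset.sum_le_sum
    intro n hn
    rw [mem_Ioc] at hn
    have h2 := one_div_le hn.1 hn.2 hN
    have h3 := mul_le_mul_of_nonneg_left h2 (residueClass_nonneg a n)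
    calc residueClass a n / (n : ℝ) = residueClass a n * (1 / n) := by ring
      _ ≤ _ := h3
      _ = _ := by ring
  refine h1.trans ?_
  apply mul_le_mul_of_nonneg_left _ (Real.exp_pos 1).le
  have h4 : (1 : ℝ) < 1 + 1 / Real.log N := by
    have : 0 < 1 / Real.log N := by positivity
    linarith
  have h5 : (1 + 1 / Real.log N) ∈ Set.Ioc (1 : ℝ) 2 := by
    refine ⟨h4, ?_⟩
    have : 1 / Real.log N ≤ 1 := by rw [div_le_one hL]; exact hN
    linarith
  have h6 := (summable_SS a h4).sum_le_tsum (Ioc 0 N)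
    (fun n _ => div_nonneg (residueClass_nonneg a n) (Real.rpow_nonneg (Nat.cast_nonneg n) _))
  refine h6.trans ((hC _ h5).2.trans (le_of_eq ?_))
  rw [add_sub_cancel_left, div_div_eq_mul_div, div_one]

/-- cutting the series -/
theorem SS_cut {q : ℕ} (a : ZMod q) {y K : ℕ} {M : ℝ} (hy : 1 ≤ Real.log y) (hM : 0 < M) :
    SS a (1 + 1 / (M * Real.log y)) ≤ ∑ n ∈ Ioc 0 (y ^ K), residueClass a n / (n : ℝ) +
      Real.exp (-(K / (2 * M))) * SS a (1 + 1 / (2 * M * Real.log y)) := by
  have hL : 0 < Real.log y := by linarith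
  have hy0 : (0 : ℝ) < y := by
    rcases Nat.eq_zero_or_pos y with h | h
    · subst h
      simp at hL
    · exact_mod_cast h
  have hs : (1 : ℝ) < 1 + 1 / (M * Real.log y) := by
    have : 0 < 1 / (M * Real.log y) := by positivity
    linarith
  have hs' : (1 : ℝ) < 1 + 1 / (2 * M * Real.log y) := by
    have : 0 < 1 / (2 * M * Real.log y) := by positivity
    linarith
  set s := 1 + 1 / (M * Real.log y) with hsdef
  set s' := 1 + 1 / (2 * M * Real.log y) with hsdef'
  have hpt : ∀ n : ℕ, residueClass a n / (n : ℝ) ^ s ≤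
      (if n ∈ Ioc 0 (y ^ K) then residueClass a n / (n : ℝ) else 0) +
      Real.exp (-(K / (2 * M))) * (residueClass a n / (n : ℝ) ^ s') := by
    intro n
    have hr := residueClass_nonneg a n
    rcases Nat.eq_zero_or_pos n with h | h
    · subst h
      simp
    have hn' : (0 : ℝ) < n := by exact_mod_cast h
    have hn1 : (1 : ℝ) ≤ n := by exact_mod_cast h
    by_cases hmem : n ∈ Ioc 0 (y ^ K)
    · rw [if_pos hmem]
      have h1 : residueClass a n / (n : ℝ) ^ s ≤ residueClass a n / (n : ℝ) := by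
        apply div_le_div_of_nonneg_left hr hn'
        calc (n : ℝ) = (n : ℝ) ^ (1 : ℝ) := (Real.rpow_one _).symm
          _ ≤ _ := Real.rpow_le_rpow_of_exponent_le hn1 hs.le
      have h2 : 0 ≤ Real.exp (-(K / (2 * M))) * (residueClass a n / (n : ℝ) ^ s') := by positivity
      linarith
    · rw [if_neg hmem, zero_add]
      have hgt : y ^ K < n := by
        by_contra hcon
        push Not at hcon
        exact hmem (mem_Ioc.mpr ⟨h, hcon⟩)
      have hlog : K * Real.log y ≤ Real.log n := by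
        rw [← Real.log_pow]
        apply Real.log_le_log (by positivity)
        exact_mod_cast hgt.le
      have h1 : (n : ℝ) ^ s = (n : ℝ) ^ s' * (n : ℝ) ^ (1 / (2 * M * Real.log y)) := by
        rw [← Real.rpow_add hn']
        congr 1
        rw [hsdef, hsdef']
        field_simp
        ring
      have h2 : Real.exp (K / (2 * M)) ≤ (n : ℝ) ^ (1 / (2 * M * Real.log y)) := by
        rw [Real.rpow_def_of_pos hn']
        apply Real.exp_le_exp.mpr
        rw [mul_one_div, div_le_div_iff₀ (by positivity) (by positivity)]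
        nlinarith
      have h3 : 0 < (n : ℝ) ^ s' := Real.rpow_pos_of_pos hn' _
      rw [h1, Real.exp_neg, ← div_div]
      rw [div_eq_inv_mul]
      apply mul_le_mul_of_nonneg_right _ (by positivity)
      exact inv_anti₀ (Real.exp_pos _) h2
  have hsum1 : Summable fun n : ℕ => (if n ∈ Ioc 0 (y ^ K) then residueClass a n / (n : ℝ) else 0) :=
    summable_of_ne_finset_zero (s := Ioc 0 (y ^ K)) (fun n hn => if_neg hn)
  have hsum2 : Summable fun n : ℕ =>
      Real.exp (-(K / (2 * M))) * (residueClass a n / (n : ℝ) ^ s') := (summable_SS a hs').mul_left _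
  have h := Summable.tsum_le_tsum hpt (summable_SS a hs) (hsum1.add hsum2)
  rw [Summable.tsum_add hsum1 hsum2, tsum_mul_left] at h
  rw [tsum_eq_sum (s := Ioc 0 (y ^ K)) (fun n hn => if_neg hn)] at h
  rw [Finset.sum_congr rfl (fun n hn => if_pos hn)] at h
  exact h

end Pool.Agent.EMSeed
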