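import Mathlib
import Pool.Agent.Lib_MP_cde011_em.NT

/-!
# Primes in residue classes in the block from `y` to `y ^ 64`
-/

set_option autoImplicit false

namespace Pool.Agent.EMSeed

open Finset ArithmeticFunction ArithmeticFunction.vonMangoldt Filter

theorem residueClass_prime {q : ℕ} {a : ZMod q} {n : ℕ} (hn : n.Prime) (h : (n : ZMod q) = a) :
    residueClass a n = Real.log n := by
  have : n ∈ {n : ℕ | (n : ZMod q) = a} := h
  rw [residueClass, Set.indicator_of_mem this, vonMangoldt_apply_prime hn]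

theorem tendsto_log_nat : Tendsto (fun y : ℕ => Real.log y) atTop atTop :=
  Real.tendsto_log_atTop.comp tendsto_natCast_atTop_atTop

/-- upper bound for all primes of a block -/
theorem block_upper : ∃ C : ℝ, ∀ y : ℕ, 1 ≤ Real.log y →
    ∑ q ∈ (Ioc y (y ^ 64)).filter Nat.Prime, (1 : ℝ) / q ≤ C := by
  have h1 : IsUnit (1 : ZMod 1) := isUnit_one
  obtain ⟨C, hC0, hC⟩ := sum_le h1
  refine ⟨Real.exp 1 * (64 + C), fun y hy => ?_⟩
  have hL : 0 < Real.log y := by linarith
  have hy0 : (0 : ℝ) < y := by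
    rcases Nat.eq_zero_or_pos y with h | h
    · subst h
      simp at hL
    · exact_mod_cast h
  have hz : Real.log ((y ^ 64 : ℕ) : ℝ) = 64 * Real.log y := by
    push_cast
    rw [Real.log_pow]
    norm_num
  have h2 := hC (y ^ 64) (by rw [hz]; linarith)
  rw [hz] at h2
  have h3 : Real.log y * ∑ q ∈ (Ioc y (y ^ 64)).filter Nat.Prime, (1 : ℝ) / q ≤
      ∑ n ∈ Ioc 0 (y ^ 64), residueClass (1 : ZMod 1) n / (n : ℝ) := by
    rw [Finset.mul_sum]
    have h4 : ∑ q ∈ (Ioc y (y ^ 64)).filter Nat.Prime, Real.log y * ((1 : ℝ) / q) ≤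
        ∑ q ∈ (Ioc y (y ^ 64)).filter Nat.Prime, residueClass (1 : ZMod 1) q / (q : ℝ) := by
      apply Finset.sum_le_sum
      intro q hq
      rw [mem_filter, mem_Ioc] at hq
      rw [residueClass_prime hq.2 (Subsingleton.elim _ _), mul_one_div]
      apply div_le_div_of_nonneg_right _ (Nat.cast_nonneg q)
      exact Real.log_le_log hy0 (by exact_mod_cast hq.1.1.le)
    refine h4.trans ?_
    apply Finset.sum_le_sum_of_subset_of_nonneg
    · intro q hq
      rw [mem_filter, mem_Ioc] at hq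
      rw [mem_Ioc]
      exact ⟨hq.2.pos, hq.1.2⟩
    · intro n _ _
      exact div_nonneg (residueClass_nonneg _ n) (Nat.cast_nonneg n)
  have h5 : (((1 : ℕ).totient : ℝ))⁻¹ = 1 := by simp
  rw [h5, one_mul] at h2
  have h6 : Real.log y * ∑ q ∈ (Ioc y (y ^ 64)).filter Nat.Prime, (1 : ℝ) / q ≤
      Real.log y * (Real.exp 1 * (64 + C)) := by
    refine h3.trans (h2.trans ?_)
    have h7 : 64 * Real.log y + C ≤ Real.log y * (64 + C) := by nlinarith
    have h8 := mul_le_mul_of_nonneg_left h7 (Real.exp_pos 1).le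
    linarith
  exact le_of_mul_le_mul_left h6 hL

/-- lower bound for one residue class -/
theorem block_lower {p : ℕ} [Fact p.Prime] (d : ZMod p) (hd : d ≠ 0) :
    ∀ᶠ y : ℕ in atTop, (p.totient : ℝ)⁻¹ / 32 ≤
      ∑ q ∈ (Ioc y (y ^ 64)).filter (fun q : ℕ => q.Prime ∧ (q : ZMod p) = d), (1 : ℝ) / q := by
  have hu : IsUnit d := isUnit_iff_ne_zero.mpr hd
  have hp0 : NeZero p := ⟨(Fact.out : p.Prime).ne_zero⟩
  obtain ⟨C, hC0, hC⟩ := SS_bounds hu
  obtain ⟨C', hC'0, hC'⟩ := sum_le hu
  set C2 : ℝ := ∑' n : ℕ, (if n.Prime then 0 else residueClass d n) / (n : ℝ) with hC2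
  set φ : ℝ := (p.totient : ℝ)⁻¹ with hφ
  have hφ0 : 0 < φ := by
    rw [hφ]
    have : 0 < p.totient := Nat.totient_pos.mpr (Fact.out : p.Prime).pos
    positivity
  have hev : ∀ᶠ y : ℕ in atTop, 1 ≤ Real.log y ∧ (2 * C + 3 * C' + C2) / (2 * φ) ≤ Real.log y :=
    (tendsto_log_nat.eventually_ge_atTop 1).and (tendsto_log_nat.eventually_ge_atTop _)
  filter_upwards [hev] with y hy
  obtain ⟨hy1, hy2⟩ := hy
  have hL : 0 < Real.log y := by linarith
  have hy0 : (0 : ℝ) < y := by
    rcases Nat.eq_zero_or_pos y with h | h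
    · subst h
      simp at hL
    · exact_mod_cast h
  have hyn : 0 < y := by exact_mod_cast hy0
  have hcut := SS_cut d (K := 64) (M := 8) hy1 (by norm_num)
  -- the two points
  have hx1 : (1 + 1 / (8 * Real.log y)) ∈ Set.Ioc (1 : ℝ) 2 := by
    constructor
    · have : 0 < 1 / (8 * Real.log y) := by positivity
      linarith
    · have : 1 / (8 * Real.log y) ≤ 1 := by
        rw [div_le_one (by positivity)]
        linarith
      linarith
  have hx2 : (1 + 1 / (2 * 8 * Real.log y)) ∈ Set.Ioc (1 : ℝ) 2 := by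
    constructor
    · have : 0 < 1 / (2 * 8 * Real.log y) := by positivity
      linarith
    · have : 1 / (2 * 8 * Real.log y) ≤ 1 := by
        rw [div_le_one (by positivity)]
        linarith
      linarith
  have hlow := (hC _ hx1).1
  have hupp := (hC _ hx2).2
  rw [add_sub_cancel_left, div_div_eq_mul_div, div_one] at hlow hupp
  have hhead := hC' y hy1
  -- numerical constants
  have hexp1 : Real.exp 1 ≤ 2.7182818286 := Real.exp_one_lt_d9.le
  have hexp4 : Real.exp (-(((64 : ℕ) : ℝ) / (2 * 8))) ≤ 1 / 50 := by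
    have h1 : -(((64 : ℕ) : ℝ) / (2 * 8)) = -4 := by norm_num
    rw [h1, Real.exp_neg, ← one_div]
    apply one_div_le_one_div_of_le (by norm_num)
    have h2 : (2.7182818283 : ℝ) ≤ Real.exp 1 := Real.exp_one_gt_d9.le
    have h3 : Real.exp 4 = Real.exp 1 ^ 4 := by
      rw [← Real.exp_nat_mul]
      norm_num
    rw [h3]
    calc (50 : ℝ) ≤ 2.7182818283 ^ 4 := by norm_num
      _ ≤ _ := pow_le_pow_left₀ (by norm_num) h2 4
  have htail : Real.exp (-(((64 : ℕ) : ℝ) / (2 * 8))) * SS d (1 + 1 / (2 * 8 * Real.log y)) ≤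
      1 / 50 * (φ * (2 * 8 * Real.log y) + C) :=
    mul_le_mul hexp4 hupp (SS_nonneg _ _) (by norm_num)
  have hhead2 : ∑ n ∈ Ioc 0 y, residueClass d n / (n : ℝ) ≤
      2.7182818286 * (φ * Real.log y + C') := by
    refine hhead.trans (mul_le_mul_of_nonneg_right hexp1 ?_)
    positivity
  -- splitting the sum
  have hsplit : ∑ n ∈ Ioc 0 (y ^ 64), residueClass d n / (n : ℝ) =
      ∑ n ∈ Ioc 0 y, residueClass d n / (n : ℝ) +
      ∑ n ∈ Ioc y (y ^ 64), residueClass d n / (n : ℝ) := by
    rw [Finset.sum_Ioc_consecutive _ (Nat.zero_le y) (Nat.le_self_pow (by norm_num) y)]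
  have hmid : ∑ n ∈ Ioc y (y ^ 64), residueClass d n / (n : ℝ) ≤
      64 * Real.log y * ∑ q ∈ (Ioc y (y ^ 64)).filter (fun q : ℕ => q.Prime ∧ (q : ZMod p) = d),
        (1 : ℝ) / q + C2 := by
    have h1 : ∑ n ∈ Ioc y (y ^ 64), residueClass d n / (n : ℝ) =
        ∑ n ∈ Ioc y (y ^ 64), (if n.Prime then residueClass d n else 0) / (n : ℝ) +
        ∑ n ∈ Ioc y (y ^ 64), (if n.Prime then 0 else residueClass d n) / (n : ℝ) := by
      rw [← Finset.sum_add_distrib]
      apply Finset.sum_congr rfl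
      intro n _
      split_ifs <;> simp
    rw [h1]
    have h2 : ∑ n ∈ Ioc y (y ^ 64), (if n.Prime then 0 else residueClass d n) / (n : ℝ) ≤ C2 := by
      apply (summable_residueClass_non_primes_div d).sum_le_tsum
      intro n _
      apply div_nonneg _ (Nat.cast_nonneg n)
      split_ifs
      · exact le_rfl
      · exact residueClass_nonneg d n
    have h3 : ∑ n ∈ Ioc y (y ^ 64), (if n.Prime then residueClass d n else 0) / (n : ℝ) ≤
        64 * Real.log y * ∑ q ∈ (Ioc y (y ^ 64)).filter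
          (fun q : ℕ => q.Prime ∧ (q : ZMod p) = d), (1 : ℝ) / q := by
      rw [Finset.mul_sum, Finset.sum_filter]
      apply Finset.sum_le_sum
      intro n hn
      rw [mem_Ioc] at hn
      by_cases hpn : n.Prime
      · rw [if_pos hpn]
        by_cases hcl : (n : ZMod p) = d
        · rw [if_pos ⟨hpn, hcl⟩, residueClass_prime hpn hcl, mul_one_div]
          apply div_le_div_of_nonneg_right _ (Nat.cast_nonneg n)
          have h5 : Real.log n ≤ Real.log ((y ^ 64 : ℕ) : ℝ) := by
            apply Real.log_le_log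
            · exact_mod_cast hpn.pos
            · exact_mod_cast hn.2
          have hz : Real.log ((y ^ 64 : ℕ) : ℝ) = 64 * Real.log y := by
            push_cast
            rw [Real.log_pow]
            norm_num
          linarith
        · rw [if_neg (fun h => hcl h.2)]
          have : residueClass d n = 0 := by
            have hnm : n ∉ {n : ℕ | (n : ZMod p) = d} := hcl
            rw [residueClass, Set.indicator_of_notMem hnm]
          rw [this, zero_div]
      · rw [if_neg hpn, if_neg (fun h => hpn h.1), zero_div]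
    linarith
  set T := ∑ q ∈ (Ioc y (y ^ 64)).filter (fun q : ℕ => q.Prime ∧ (q : ZMod p) = d), (1 : ℝ) / q
    with hT
  have hy3 : 2 * C + 3 * C' + C2 ≤ Real.log y * (2 * φ) := by
    rw [div_le_iff₀ (by positivity)] at hy2
    exact hy2
  have hφL : 0 < φ * Real.log y := mul_pos hφ0 hL
  have hfin : 2 * (φ * Real.log y) ≤ 64 * Real.log y * T := by
    rw [hsplit] at hcut
    nlinarith
  have : (φ / 32) * (64 * Real.log y) ≤ T * (64 * Real.log y) := by linarith
  exact le_of_mul_le_mul_right this (by positivity)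

theorem block_lower_all {p : ℕ} [Fact p.Prime] :
    ∀ᶠ y : ℕ in atTop, ∀ d : ZMod p, d ≠ 0 → (p.totient : ℝ)⁻¹ / 32 ≤
      ∑ q ∈ (Ioc y (y ^ 64)).filter (fun q : ℕ => q.Prime ∧ (q : ZMod p) = d), (1 : ℝ) / q := by
  rw [Filter.eventually_all]
  intro d
  by_cases hd : d = 0
  · exact Filter.Eventually.of_forall fun y h => absurd hd h
  · filter_upwards [block_lower d hd] with y hy _
    exact hy

end Pool.Agent.EMSeed
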