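import Mathlib
import Pool.Agent.Lib_MP_cde011_em.Block
import Pool.Agent.Lib_MP_cde011_em.NT2

/-!
# The average potential tends to zero
-/

set_option autoImplicit false

namespace Pool.Agent.EMSeed

open Finset Filter Topology

theorem WW_succ_le_self {β : ℕ → ℝ} (hβ : Adm2 β) {p y : ℕ} (hp : p.Prime) (hpy : p ≤ y) :
    WW β p (y + 1) ≤ WW β p y := by
  by_cases h : (y + 1).Prime
  · have h1 := WW_succ_le hβ.adm hp hpy h
    have h2 : 0 ≤ β (y + 1) / 2 * WC β p y ((y + 1 : ℕ) : ZMod p) :=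
      mul_nonneg (div_nonneg (hβ.adm _ h).1 (by norm_num)) (WC_nonneg hβ.adm p y _)
    linarith
  · rw [WW_succ_of_not_prime β p h]

theorem tendsto_WW {β : ℕ → ℝ} (hβ : Adm2 β) {p : ℕ} [Fact p.Prime] :
    Tendsto (fun y => WW β p y) atTop (𝓝 0) := by
  have hp : p.Prime := Fact.out
  have hanti : Antitone fun n => WW β p (n + p) := by
    apply antitone_nat_of_succ_le
    intro n
    have := WW_succ_le_self hβ hp (show p ≤ n + p by omega)
    rwa [show n + p + 1 = n + 1 + p by ring] at this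
  have hbdd : BddBelow (Set.range fun n => WW β p (n + p)) := by
    refine ⟨0, ?_⟩
    rintro _ ⟨n, rfl⟩
    exact WW_nonneg hβ.adm p _
  have hlim := tendsto_atTop_ciInf hanti hbdd
  set L := ⨅ n, WW β p (n + p) with hL
  have hlim' : Tendsto (fun y => WW β p y) atTop (𝓝 L) := (tendsto_add_atTop_iff_nat p).mp hlim
  have hL0 : 0 ≤ L := ge_of_tendsto' hlim' fun y => WW_nonneg hβ.adm p y
  obtain ⟨C, hC⟩ := block_upper
  set η : ℝ := (p.totient : ℝ)⁻¹ / 32 with hη
  have hη0 : 0 < η := by
    have : 0 < p.totient := Nat.totient_pos.mpr hp.pos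
    positivity
  have hev : ∀ᶠ y : ℕ in atTop,
      WW β p (y ^ 64) ≤ (1 - Real.exp (-(4 * C)) * η / 2) * WW β p y := by
    filter_upwards [block_lower_all (p := p), tendsto_log_nat.eventually_ge_atTop 1,
      eventually_ge_atTop (max p 4)] with y h1 h2 h3
    exact WW_block_le hβ hp (le_trans (le_max_left _ _) h3) (le_trans (le_max_right _ _) h3)
      (Nat.le_self_pow (by norm_num) y) h1 (hC y h2) hη0.le
  have hpow : Tendsto (fun y : ℕ => y ^ 64) atTop atTop := tendsto_pow_atTop (by norm_num)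
  have h1 : Tendsto (fun y : ℕ => WW β p (y ^ 64)) atTop (𝓝 L) := hlim'.comp hpow
  have h2 : L ≤ (1 - Real.exp (-(4 * C)) * η / 2) * L :=
    le_of_tendsto_of_tendsto h1 (hlim'.const_mul _) hev
  have h3 : 0 < Real.exp (-(4 * C)) * η / 2 := by positivity
  have h4 : L = 0 := by
    apply le_antisymm _ hL0
    by_contra hcon
    push Not at hcon
    have := mul_pos h3 hcon
    linarith
  rw [h4] at hlim'
  exact hlim'

end Pool.Agent.EMSeed
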