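import Mathlib
import Pool.Agent.Lib_MP_cde011_em.Limit

/-!
# Natural density of the bad starting values
-/

set_option autoImplicit false

namespace Pool.Agent.EMSeed

open Finset Filter Topology

open Classical in
/-- counting function -/
noncomputable def cnt (S : ℕ → Prop) (N : ℕ) : ℕ := ((Icc 1 N).filter S).card

theorem cnt_mono {S T : ℕ → Prop} (h : ∀ m, 0 < m → S m → T m) (N : ℕ) : cnt S N ≤ cnt T N := by
  classical
  unfold cnt
  apply Finset.card_le_card
  intro m hm
  rw [mem_filter, mem_Icc] at hm ⊢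
  exact ⟨hm.1, h m (by omega) hm.2⟩

theorem cnt_or_le (S T : ℕ → Prop) (N : ℕ) : cnt (fun m => S m ∨ T m) N ≤ cnt S N + cnt T N := by
  classical
  have hsub : (Icc 1 N).filter (fun m => S m ∨ T m) ⊆ (Icc 1 N).filter S ∪ (Icc 1 N).filter T := by
    intro m hm
    simp only [mem_filter, mem_union] at hm ⊢
    tauto
  have h := (Finset.card_le_card hsub).trans (Finset.card_union_le _ _)
  unfold cnt
  refine le_trans (le_of_eq ?_) h
  congr

/-- density zero -/
def Null (S : ℕ → Prop) : Prop := Tendsto (fun N : ℕ => (cnt S N : ℝ) / N) atTop (𝓝 0)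

theorem Null.mono {S T : ℕ → Prop} (hT : Null T) (h : ∀ m, 0 < m → S m → T m) : Null S := by
  refine squeeze_zero (fun N => by positivity) (fun N => ?_) hT
  apply div_le_div_of_nonneg_right _ (Nat.cast_nonneg N)
  exact_mod_cast cnt_mono h N

theorem Null.or {S T : ℕ → Prop} (hS : Null S) (hT : Null T) : Null (fun m => S m ∨ T m) := by
  have h := hS.add hT
  rw [add_zero] at h
  refine squeeze_zero (fun N => by positivity) (fun N => ?_) h
  rw [← add_div]
  apply div_le_div_of_nonneg_right _ (Nat.cast_nonneg N)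
  exact_mod_cast cnt_or_le S T N

theorem null_false : Null (fun _ => False) := by
  unfold Null cnt
  simp

/-- the bad starting values for `p` -/
def Bad (p m : ℕ) : Prop := ¬ p ∣ m ∧ ∀ n, emTerm m n ≠ p

/-- the uniform weights -/
noncomputable def βu (q : ℕ) : ℝ := 1 / q

theorem adm2_βu : Adm2 βu := by
  intro q hq
  have h : (0 : ℝ) < q := by exact_mod_cast hq.pos
  refine ⟨le_rfl, ?_⟩
  unfold βu
  rw [mul_one_div, div_le_one h]
  linarith

theorem om_βu (y m : ℕ) : om βu y m = (primorial y : ℝ)⁻¹ := by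
  unfold om
  rw [primorial_eq_prod_primesLE]
  push_cast
  rw [← Finset.prod_inv_distrib]
  apply Finset.prod_congr rfl
  intro q hq
  have hq' := (Nat.mem_primesLE.mp hq).2
  have h : (0 : ℝ) < q := by exact_mod_cast hq'.pos
  unfold uu βu
  split_ifs
  · field_simp
    ring
  · rw [one_div]

theorem sum_wt_eq (p y : ℕ) :
    ∑ r ∈ range (primorial y), wt p y (r + 1) = primorial y * WW βu p y := by
  unfold WW
  have h : (primorial y : ℝ) ≠ 0 := by exact_mod_cast primorial_ne_zero y
  rw [Finset.mul_sum]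
  apply Finset.sum_congr rfl
  intro r _
  rw [om_βu]
  field_simp

theorem sum_wt_periodic {p y : ℕ} (hp : p.Prime) (hpy : p ≤ y) (k : ℕ) :
    ∑ m ∈ range (primorial y * k), wt p y (m + 1) = k * (primorial y * WW βu p y) := by
  rw [sum_range_mul', ← sum_wt_eq, Finset.mul_sum]
  apply Finset.sum_congr rfl
  intro r _
  have h : ∀ j ∈ range k, wt p y (r + primorial y * j + 1) = wt p y (r + 1) := by
    intro j _
    have h1 : r + primorial y * j + 1 = r + 1 + primorial y * j := by ring
    rw [h1]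
    exact wt_congr hpy hp (by omega) (by omega) (modEq_lift y r j)
  rw [Finset.sum_congr rfl h, Finset.sum_const, card_range, nsmul_eq_mul]

theorem cnt_bad_le {p y : ℕ} (hp : p.Prime) (hpy : p ≤ y) (N : ℕ) :
    (cnt (Bad p) N : ℝ) ≤ 2 ^ (p + 1) * ((N + primorial y) * WW βu p y) := by
  classical
  have hQ : 0 < primorial y := primorial_pos y
  -- the sum of the potential
  have h1 : ∑ m ∈ (Icc 1 N).filter (Bad p), wt p y m ≤
      ∑ m ∈ range (primorial y * (N / primorial y + 1)), wt p y (m + 1) := by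
    have h2 : ∑ m ∈ range (primorial y * (N / primorial y + 1)), wt p y (m + 1) =
        ∑ m ∈ Icc 1 (primorial y * (N / primorial y + 1)), wt p y m := by
      rw [Finset.range_eq_Ico, Finset.sum_Ico_add' (fun m => wt p y m) 0 _ 1]
      congr 1
    rw [h2]
    apply Finset.sum_le_sum_of_subset_of_nonneg
    · intro m hm
      rw [mem_filter, mem_Icc] at hm
      rw [mem_Icc]
      refine ⟨hm.1.1, hm.1.2.trans ?_⟩
      have := Nat.lt_mul_div_succ N hQ
      exact this.le
    · intro m _ _
      exact wt_nonneg _ _ _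
  rw [sum_wt_periodic hp hpy] at h1
  have h3 : (cnt (Bad p) N : ℝ) * (1 / 2) ^ (p + 1) ≤ ∑ m ∈ (Icc 1 N).filter (Bad p), wt p y m := by
    unfold cnt
    rw [← nsmul_eq_mul]
    apply Finset.card_nsmul_le_sum
    intro m hm
    rw [mem_filter, mem_Icc] at hm
    exact le_wt (by omega) ⟨hm.2.1, fun i _ => hm.2.2 i⟩
  have h4 : ((N / primorial y + 1 : ℕ) : ℝ) * (primorial y * WW βu p y) ≤
      (N + primorial y) * WW βu p y := by
    have h5 : ((N / primorial y + 1 : ℕ) : ℝ) * primorial y ≤ N + primorial y := by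
      have : (N / primorial y + 1) * primorial y ≤ N + primorial y := by
        have := Nat.div_mul_le_self N (primorial y)
        nlinarith
      exact_mod_cast this
    have := mul_le_mul_of_nonneg_right h5 (WW_nonneg adm2_βu.adm p y)
    linarith
  have h6 : (2 : ℝ) ^ (p + 1) * (1 / 2) ^ (p + 1) = 1 := by
    rw [← mul_pow]
    norm_num
  calc (cnt (Bad p) N : ℝ) = 2 ^ (p + 1) * ((cnt (Bad p) N : ℝ) * (1 / 2) ^ (p + 1)) := by
        linear_combination -(cnt (Bad p) N : ℝ) * h6
    _ ≤ 2 ^ (p + 1) * ((N + primorial y) * WW βu p y) := by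
        apply mul_le_mul_of_nonneg_left _ (by positivity)
        exact h3.trans (h1.trans h4)

/-- the bad starting values have density zero -/
theorem null_bad {p : ℕ} (hp : p.Prime) : Null (Bad p) := by
  haveI : Fact p.Prime := ⟨hp⟩
  have hW := tendsto_WW adm2_βu (p := p)
  unfold Null
  rw [Metric.tendsto_atTop]
  intro ε hε
  have h1 : ∀ᶠ y in atTop, WW βu p y < ε / (2 ^ (p + 1) * 2) :=
    hW.eventually_lt_const (by positivity)
  obtain ⟨y, hy1, hy2⟩ := (h1.and (eventually_ge_atTop p)).exists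
  refine ⟨primorial y, fun N hN => ?_⟩
  have hQ : 0 < primorial y := primorial_pos y
  have hN0 : (0 : ℝ) < N := by
    have : 0 < N := lt_of_lt_of_le hQ hN
    exact_mod_cast this
  rw [Real.dist_eq, sub_zero, abs_of_nonneg (by positivity), div_lt_iff₀ hN0]
  have h2 := cnt_bad_le hp hy2 N
  have h3 : ((N : ℝ) + primorial y) ≤ 2 * N := by
    have : (primorial y : ℝ) ≤ N := by exact_mod_cast hN
    linarith
  have hW0 := WW_nonneg adm2_βu.adm p y
  have h4 : (2 : ℝ) ^ (p + 1) * (((N : ℝ) + primorial y) * WW βu p y) ≤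
      2 ^ (p + 1) * (2 * N * WW βu p y) := by
    apply mul_le_mul_of_nonneg_left _ (by positivity)
    exact mul_le_mul_of_nonneg_right h3 hW0
  have h5 : (2 : ℝ) ^ (p + 1) * (2 * N * WW βu p y) = (2 ^ (p + 1) * 2 * WW βu p y) * N := by ring
  have h6 : (2 : ℝ) ^ (p + 1) * 2 * WW βu p y < ε := by
    rw [lt_div_iff₀ (by positivity)] at hy1
    linarith
  have h7 := mul_lt_mul_of_pos_right h6 hN0
  linarith

/-- a bad prime up to `j` -/
def BadUpTo (j m : ℕ) : Prop := ∃ p, p.Prime ∧ p ≤ j ∧ ¬ p ∣ m ∧ ∀ n, emTerm m n ≠ p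

theorem null_badUpTo (j : ℕ) : Null (BadUpTo j) := by
  induction j with
  | zero =>
    refine null_false.mono fun m _ h => ?_
    obtain ⟨p, hp, hp0, _⟩ := h
    have := hp.pos
    omega
  | succ j ih =>
    by_cases hj : (j + 1).Prime
    · refine (ih.or (null_bad hj)).mono fun m _ h => ?_
      obtain ⟨p, hp, hp0, h1⟩ := h
      rcases Nat.lt_or_eq_of_le hp0 with h2 | h2
      · exact Or.inl ⟨p, hp, by omega, h1⟩
      · subst h2
        exact Or.inr h1
    · refine ih.mono fun m _ h => ?_
      obtain ⟨p, hp, hp0, h1⟩ := h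
      rcases Nat.lt_or_eq_of_le hp0 with h2 | h2
      · exact ⟨p, hp, by omega, h1⟩
      · subst h2
        exact absurd hp hj

/-- diagonal argument -/
theorem exists_diagonal {B : ℕ → ℕ → Prop} (hmono : ∀ i j m, i ≤ j → B i m → B j m)
    (hnull : ∀ j, Null (B j)) :
    ∃ f : ℕ → ℕ, Tendsto f atTop atTop ∧ Null (fun m => B (f m) m) := by
  -- thresholds
  have h1 : ∀ j, ∃ N₀ : ℕ, ∀ N ≥ N₀, (cnt (B j) N : ℝ) / N ≤ 1 / (j + 1) := by
    intro j
    have h2 : ∀ᶠ N in atTop, (cnt (B j) N : ℝ) / N < 1 / (j + 1) :=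
      (hnull j).eventually_lt_const (by positivity)
    obtain ⟨N₀, hN₀⟩ := eventually_atTop.mp h2
    exact ⟨N₀, fun N hN => (hN₀ N hN).le⟩
  choose N₀ hN₀ using h1
  -- a monotone majorant of the thresholds
  let T : ℕ → ℕ := fun j => ∑ i ∈ range (j + 1), N₀ i
  have hT1 : ∀ j, N₀ j ≤ T j := fun j =>
    Finset.single_le_sum (f := N₀) (fun i _ => Nat.zero_le _) (mem_range.mpr (Nat.lt_succ_self j))
  let f : ℕ → ℕ := fun m => Nat.findGreatest (fun j => T j ≤ m) m
  have hfmono : Monotone f := by
    intro m m' h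
    apply Nat.findGreatest_mono _ h
    intro j hj
    exact le_trans hj h
  have hft : Tendsto f atTop atTop := by
    apply tendsto_atTop_atTop.mpr
    intro j
    refine ⟨max j (T j), fun m hm => ?_⟩
    exact Nat.le_findGreatest (le_trans (le_max_left _ _) hm) (le_trans (le_max_right _ _) hm)
  refine ⟨f, hft, ?_⟩
  have hlim : Tendsto (fun N : ℕ => (1 : ℝ) / ((f N : ℝ) + 1)) atTop (𝓝 0) :=
    tendsto_one_div_add_atTop_nhds_zero_nat.comp hft
  unfold Null
  refine squeeze_zero' (Filter.Eventually.of_forall fun N => by positivity) ?_ hlim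
  filter_upwards [eventually_ge_atTop (T 0)] with N hN
  have h3 : T (f N) ≤ N := by
    have := @Nat.findGreatest_spec 0 (fun j => T j ≤ N) _ N (Nat.zero_le _) hN
    exact this
  have h4 : N₀ (f N) ≤ N := (hT1 _).trans h3
  refine le_trans ?_ (hN₀ (f N) N h4)
  apply div_le_div_of_nonneg_right _ (Nat.cast_nonneg N)
  have h5 : cnt (fun m => B (f m) m) N ≤ cnt (B (f N)) N := by
    classical
    unfold cnt
    apply Finset.card_le_card
    intro m hm
    rw [mem_filter, mem_Icc] at hm ⊢
    exact ⟨hm.1, hmono _ _ m (hfmono hm.1.2) hm.2⟩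
  exact_mod_cast h5

/-- the starting values whose first `k` terms are the first `k` terms for the starting value `1` -/
def Prefix (k m : ℕ) : Prop := ∀ i < k, emTerm m i = emTerm 1 i

theorem prefix_count (k : ℕ) : ∃ Q : ℕ, 0 < Q ∧ ∀ N : ℕ, N ≤ Q * cnt (Prefix k) N := by
  classical
  set y := ∑ i ∈ range k, emTerm 1 i with hy
  have hle : ∀ i < k, emTerm 1 i ≤ y := fun i hi =>
    Finset.single_le_sum (f := emTerm 1) (fun i _ => Nat.zero_le _) (mem_range.mpr hi)
  have hlev : k ≤ lev y 1 := by
    by_contra hcon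
    push Not at hcon
    have h1 := lev_spec (m := 1) one_pos y
    have h2 := hle _ hcon
    omega
  have hpre : ∀ m, 0 < m → 1 ≡ m [MOD primorial y] → Prefix k m := by
    intro m hm h i hi
    exact terms_congr one_pos hm h i (by omega)
  refine ⟨primorial y, primorial_pos y, fun N => ?_⟩
  have hQ : 0 < primorial y := primorial_pos y
  -- the numbers `1 + Q * j`
  have h1 : (range ((N + primorial y - 1) / primorial y)).card ≤ ((Icc 1 N).filter (Prefix k)).card := by
    apply Finset.card_le_card_of_injOn (fun j => 1 + primorial y * j)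
    · intro j hj
      simp only [coe_range, Set.mem_Iio] at hj
      have h2 : 1 + primorial y * j ≤ N := by
        have h3 : j + 1 ≤ (N + primorial y - 1) / primorial y := hj
        have h4 := (Nat.le_div_iff_mul_le hQ).mp h3
        have h5 : (j + 1) * primorial y = primorial y * j + primorial y := by ring
        omega
      simp only [coe_filter, mem_Icc, Set.mem_setOf_eq]
      refine ⟨⟨by omega, h2⟩, hpre _ (by omega) ?_⟩
      have h6 : 1 + 0 ≡ 1 + primorial y * j [MOD primorial y] :=
        Nat.ModEq.add_left _ ((Nat.modEq_zero_iff_dvd.mpr (dvd_mul_right _ _)).symm)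
      simpa using h6
    · intro a _ b _ hab
      have : primorial y * a = primorial y * b := by
        have h7 : 1 + primorial y * a = 1 + primorial y * b := hab
        omega
      exact Nat.eq_of_mul_eq_mul_left hQ this
  rw [card_range] at h1
  unfold cnt
  calc N ≤ primorial y * ((N + primorial y - 1) / primorial y) := by
        have := Nat.lt_mul_div_succ (N + primorial y - 1) hQ
        rw [Nat.mul_add, Nat.mul_one] at this
        omega
    _ ≤ _ := Nat.mul_le_mul_left _ h1

/-- Main theorem in terms of counting functions. -/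
theorem main_density : ∃ f : ℕ → ℕ, Tendsto f atTop atTop ∧ ∀ k : ℕ,
    Tendsto (fun N : ℕ => (cnt (fun m => Prefix k m ∧ BadUpTo (f m) m) N : ℝ) /
      (cnt (Prefix k) N : ℝ)) atTop (𝓝 0) := by
  obtain ⟨f, hf1, hf2⟩ := exists_diagonal (B := BadUpTo)
    (fun i j m hij h => by
      obtain ⟨p, hp, hpi, h1⟩ := h
      exact ⟨p, hp, hpi.trans hij, h1⟩) null_badUpTo
  refine ⟨f, hf1, fun k => ?_⟩
  obtain ⟨Q, hQ, hcount⟩ := prefix_count k
  have hlim : Tendsto (fun N : ℕ => (Q : ℝ) * ((cnt (fun m => BadUpTo (f m) m) N : ℝ) / N))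
      atTop (𝓝 0) := by
    have := hf2.const_mul (Q : ℝ)
    rwa [mul_zero] at this
  refine squeeze_zero' (Filter.Eventually.of_forall fun N => by positivity) ?_ hlim
  filter_upwards [eventually_ge_atTop 1] with N hN
  have hN0 : (0 : ℝ) < N := by exact_mod_cast hN
  have h1 : (N : ℝ) ≤ Q * cnt (Prefix k) N := by exact_mod_cast hcount N
  have hQ0 : (0 : ℝ) < Q := by exact_mod_cast hQ
  have hc0 : (0 : ℝ) < cnt (Prefix k) N := by
    by_contra hcon
    push Not at hcon
    nlinarith
  have h2 : (cnt (fun m => Prefix k m ∧ BadUpTo (f m) m) N : ℝ) ≤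
      cnt (fun m => BadUpTo (f m) m) N := by
    have := cnt_mono (S := fun m => Prefix k m ∧ BadUpTo (f m) m) (T := fun m => BadUpTo (f m) m)
      (fun m _ h => h.2) N
    exact_mod_cast this
  rw [div_le_iff₀ hc0]
  have h3 : (0 : ℝ) ≤ cnt (fun m => BadUpTo (f m) m) N := by positivity
  calc (cnt (fun m => Prefix k m ∧ BadUpTo (f m) m) N : ℝ) ≤ cnt (fun m => BadUpTo (f m) m) N := h2
    _ = (cnt (fun m => BadUpTo (f m) m) N : ℝ) / N * N := by field_simp
    _ ≤ (cnt (fun m => BadUpTo (f m) m) N : ℝ) / N * (Q * cnt (Prefix k) N) :=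
        mul_le_mul_of_nonneg_left h1 (by positivity)
    _ = _ := by ring

end Pool.Agent.EMSeed
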