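import Mathlib
import Pool.Agent.Lib_MP_cde011_em.BT
import Pool.Agent.Lib_MP_cde011_em.Density

/-!
# Prime starting values: natural density relative to the primes
-/

set_option autoImplicit false

namespace Pool.Agent.EMSeed

open Finset Filter Topology

/-- the weights for prime starting values -/
noncomputable def βp (q : ℕ) : ℝ := 1 / ((q : ℝ) - 1)

theorem adm2_βp : Adm2 βp := by
  intro q hq
  have h : (2 : ℝ) ≤ q := by exact_mod_cast hq.two_le
  unfold βp
  constructor
  · exact one_div_le_one_div_of_le (by linarith) (by linarith)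
  · rw [mul_one_div, div_self (by linarith)]

theorem coprime_primorial_iff (y m : ℕ) :
    m.Coprime (primorial y) ↔ ∀ q ∈ Nat.primesLE y, ¬ q ∣ m := by
  rw [primorial_eq_prod_primesLE, Nat.coprime_prod_right_iff]
  apply forall₂_congr
  intro q hq
  rw [Nat.coprime_comm, (Nat.mem_primesLE.mp hq).2.coprime_iff_not_dvd]

theorem totient_primorial (y : ℕ) :
    ((primorial y).totient : ℝ) = ∏ q ∈ Nat.primesLE y, ((q : ℝ) - 1) := by
  induction y with
  | zero => simp [Nat.primesLE]
  | succ y ih =>
    by_cases h : (y + 1).Prime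
    · rw [primorial_succ_of_prime h, Nat.totient_mul (coprime_primorial h), Nat.totient_prime h,
        primesLE_succ_of_prime h, Finset.prod_insert (not_mem_primesLE y), ← ih]
      push_cast
      ring
    · rw [primorial_succ_of_not_prime h, primesLE_succ_of_not_prime h, ih]

theorem om_βp {y m : ℕ} (h : m.Coprime (primorial y)) :
    om βp y m = 1 / ((primorial y).totient : ℝ) := by
  rw [totient_primorial, one_div, ← Finset.prod_inv_distrib]
  unfold om
  apply Finset.prod_congr rfl
  intro q hq
  have h1 := (coprime_primorial_iff y m).mp h q hq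
  unfold uu βp
  rw [if_neg h1, one_div]

/-- the alive unit classes -/
noncomputable def aliveCl (p y : ℕ) : Finset ℕ := by
  classical
  exact (range (primorial y)).filter (fun r => (r + 1).Coprime (primorial y) ∧ Alive p y (r + 1))

theorem card_aliveCl_le (p y : ℕ) :
    ((aliveCl p y).card : ℝ) / ((primorial y).totient : ℝ) ≤ 2 ^ (p + 1) * WW βp p y := by
  classical
  have h1 : ((aliveCl p y).card : ℝ) * (1 / ((primorial y).totient : ℝ) * (1 / 2) ^ (p + 1)) ≤
      WW βp p y := by
    unfold WW
    rw [← nsmul_eq_mul]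
    calc (aliveCl p y).card • (1 / ((primorial y).totient : ℝ) * (1 / 2) ^ (p + 1)) ≤
        ∑ r ∈ aliveCl p y, om βp y (r + 1) * wt p y (r + 1) := by
          apply Finset.card_nsmul_le_sum
          intro r hr
          unfold aliveCl at hr
          rw [mem_filter] at hr
          rw [om_βp hr.2.1]
          exact mul_le_mul_of_nonneg_left (le_wt (Nat.succ_pos r) hr.2.2) (by positivity)
      _ ≤ _ := by
          apply Finset.sum_le_sum_of_subset_of_nonneg
          · unfold aliveCl
            exact Finset.filter_subset _ _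
          · intro r _ _
            exact mul_nonneg (om_nonneg adm2_βp.adm _ _) (wt_nonneg _ _ _)
  have h6 : (2 : ℝ) ^ (p + 1) * (1 / 2) ^ (p + 1) = 1 := by
    rw [← mul_pow]
    norm_num
  have h7 := mul_le_mul_of_nonneg_left h1 (show (0 : ℝ) ≤ 2 ^ (p + 1) by positivity)
  calc ((aliveCl p y).card : ℝ) / ((primorial y).totient : ℝ) =
      2 ^ (p + 1) * (((aliveCl p y).card : ℝ) *
        (1 / ((primorial y).totient : ℝ) * (1 / 2) ^ (p + 1))) := by
        linear_combination -(((aliveCl p y).card : ℝ) / ((primorial y).totient : ℝ)) * h6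
    _ ≤ _ := h7

/-- the bad prime starting values -/
def BadPrime (p l : ℕ) : Prop := l.Prime ∧ p ≠ l ∧ ∀ n, emTerm l n ≠ p

theorem cnt_badPrime_le {p y z : ℕ} (hp : p.Prime) (hpy : p ≤ y) (hz : 2 ≤ z) (N : ℕ) :
    (cnt (BadPrime p) N : ℝ) ≤ y + (aliveCl p y).card * ((z : ℝ) ^ 2 + (z : ℝ) ^ 4) +
      2 ^ (p + 1) * WW βp p y * (2 * N / Real.log z) := by
  classical
  have hQ0 : 0 < primorial y := primorial_pos y
  have hsub : (Icc 1 N).filter (BadPrime p) ⊆ Icc 1 y ∪ (aliveCl p y).biUnion
      (fun r => (Ioc 0 N).filter (fun x => x.Prime ∧ x ≡ r + 1 [MOD primorial y])) := by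
    intro l hl
    rw [mem_filter, mem_Icc] at hl
    obtain ⟨⟨hl1, hlN⟩, hlp, hpl, hbad⟩ := hl
    rw [mem_union]
    by_cases hly : l ≤ y
    · exact Or.inl (mem_Icc.mpr ⟨hl1, hly⟩)
    right
    rw [mem_biUnion]
    have hmod : (l - 1) % primorial y + 1 ≡ l [MOD primorial y] := by
      have h1 : (l - 1) % primorial y + 1 ≡ (l - 1) + 1 [MOD primorial y] :=
        Nat.ModEq.add_right 1 (Nat.mod_modEq _ _)
      rwa [Nat.sub_add_cancel hl1] at h1
    have hcop : l.Coprime (primorial y) := by
      rw [coprime_primorial_iff]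
      intro q hq hd
      have h2 := Nat.mem_primesLE.mp hq
      have h3 := (Nat.prime_dvd_prime_iff_eq h2.2 hlp).mp hd
      omega
    refine ⟨(l - 1) % primorial y, ?_, ?_⟩
    · unfold aliveCl
      rw [mem_filter, mem_range]
      refine ⟨Nat.mod_lt _ hQ0, ?_, ?_⟩
      · have h4 : ((l - 1) % primorial y + 1).gcd (primorial y) = l.gcd (primorial y) := hmod.gcd_eq
        rw [Nat.coprime_iff_gcd_eq_one, h4]
        exact hcop
      · rw [alive_congr hpy hp hl1 (Nat.succ_pos _) hmod.symm]
        refine ⟨?_, fun i _ => hbad i⟩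
        intro hd
        exact hpl ((Nat.prime_dvd_prime_iff_eq hp hlp).mp hd)
    · rw [mem_filter, mem_Ioc]
      exact ⟨⟨hl1, hlN⟩, hlp, hmod.symm⟩
  have hcard := (Finset.card_le_card hsub).trans (Finset.card_union_le _ _)
  rw [Nat.card_Icc, Nat.add_sub_cancel] at hcard
  have hcard2 := hcard.trans (Nat.add_le_add_left Finset.card_biUnion_le _)
  have hcard3 : (cnt (BadPrime p) N : ℝ) ≤ y + ∑ r ∈ aliveCl p y,
      (((Ioc 0 N).filter (fun x => x.Prime ∧ x ≡ r + 1 [MOD primorial y])).card : ℝ) := by
    have e : cnt (BadPrime p) N = ((Icc 1 N).filter (BadPrime p)).card := by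
      unfold cnt
      congr
    rw [e]
    exact_mod_cast hcard2
  refine hcard3.trans ?_
  rw [add_assoc]
  apply add_le_add le_rfl
  have hφ : (0 : ℝ) < (primorial y).totient := by exact_mod_cast Nat.totient_pos.mpr hQ0
  have hlog : 0 < Real.log z := Real.log_pos (by exact_mod_cast (by omega : 1 < z))
  calc ∑ r ∈ aliveCl p y,
      (((Ioc 0 N).filter (fun x => x.Prime ∧ x ≡ r + 1 [MOD primorial y])).card : ℝ) ≤
      ∑ r ∈ aliveCl p y, ((z : ℝ) ^ 2 + (z : ℝ) ^ 4 +
        2 * N / ((primorial y).totient * Real.log z)) :=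
        Finset.sum_le_sum fun r _ => sieve_class (squarefree_primorial y) hQ0 hz N (r + 1)
    _ = (aliveCl p y).card * ((z : ℝ) ^ 2 + (z : ℝ) ^ 4) +
        ((aliveCl p y).card : ℝ) / ((primorial y).totient : ℝ) * (2 * N / Real.log z) := by
        rw [Finset.sum_const, nsmul_eq_mul]
        field_simp
    _ ≤ _ := by
        apply add_le_add le_rfl
        exact mul_le_mul_of_nonneg_right (card_aliveCl_le p y) (by positivity)

end Pool.Agent.EMSeed
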