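import Mathlib
import Pool.Agent.Lib_MP_cde011_em.Prime

/-!
# Prime starting values: the limit
-/

set_option autoImplicit false

namespace Pool.Agent.EMSeed

open Finset Filter Topology

/-- diagonal argument relative to a counting function -/
theorem exists_diagonal_rel {B : ℕ → ℕ → Prop} (hmono : ∀ i j m, i ≤ j → B i m → B j m)
    (D : ℕ → ℝ) (hD : ∀ N, 0 ≤ D N)
    (hnull : ∀ j, Tendsto (fun N : ℕ => (cnt (B j) N : ℝ) / D N) atTop (𝓝 0)) :
    ∃ f : ℕ → ℕ, Tendsto f atTop atTop ∧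
      Tendsto (fun N : ℕ => (cnt (fun m => B (f m) m) N : ℝ) / D N) atTop (𝓝 0) := by
  have h1 : ∀ j, ∃ N₀ : ℕ, ∀ N ≥ N₀, (cnt (B j) N : ℝ) / D N ≤ 1 / (j + 1) := by
    intro j
    have h2 : ∀ᶠ N in atTop, (cnt (B j) N : ℝ) / D N < 1 / (j + 1) :=
      (hnull j).eventually_lt_const (by positivity)
    obtain ⟨N₀, hN₀⟩ := eventually_atTop.mp h2
    exact ⟨N₀, fun N hN => (hN₀ N hN).le⟩
  choose N₀ hN₀ using h1
  let T : ℕ → ℕ := fun j => ∑ i ∈ range (j + 1), N₀ i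
  have hT1 : ∀ j, N₀ j ≤ T j := fun j =>
    Finset.single_le_sum (f := N₀) (fun i _ => Nat.zero_le _) (mem_range.mpr (Nat.lt_succ_self j))
  let f : ℕ → ℕ := fun m => Nat.findGreatest (fun j => T j ≤ m) m
  have hfmono : Monotone f := by
    intro m m' h
    apply Nat.findGreatest_mono _ h
    intro j hj
    exact le_trans hj h
  have hft : Tendsto f atTop atTop := by
    apply tendsto_atTop_atTop.mpr
    intro j
    refine ⟨max j (T j), fun m hm => ?_⟩
    exact Nat.le_findGreatest (le_trans (le_max_left _ _) hm) (le_trans (le_max_right _ _) hm)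
  refine ⟨f, hft, ?_⟩
  have hlim : Tendsto (fun N : ℕ => (1 : ℝ) / ((f N : ℝ) + 1)) atTop (𝓝 0) :=
    tendsto_one_div_add_atTop_nhds_zero_nat.comp hft
  refine squeeze_zero' (Filter.Eventually.of_forall fun N =>
    div_nonneg (Nat.cast_nonneg _) (hD N)) ?_ hlim
  filter_upwards [eventually_ge_atTop (T 0)] with N hN
  have h3 : T (f N) ≤ N := by
    have := @Nat.findGreatest_spec 0 (fun j => T j ≤ N) _ N (Nat.zero_le _) hN
    exact this
  have h4 : N₀ (f N) ≤ N := (hT1 _).trans h3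
  refine le_trans ?_ (hN₀ (f N) N h4)
  apply div_le_div_of_nonneg_right _ (hD N)
  have h5 : cnt (fun m => B (f m) m) N ≤ cnt (B (f N)) N := by
    classical
    unfold cnt
    apply Finset.card_le_card
    intro m hm
    rw [mem_filter, mem_Icc] at hm ⊢
    exact ⟨hm.1, hmono _ _ m (hfmono hm.1.2) hm.2⟩
  exact_mod_cast h5

theorem cnt_prime (N : ℕ) : cnt Nat.Prime N = Nat.primeCounting N := by
  classical
  rw [Nat.primeCounting, Nat.primeCounting', Nat.count_eq_card_filter_range]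
  unfold cnt
  congr 1
  ext q
  simp only [mem_filter, mem_Icc, mem_range]
  constructor
  · rintro ⟨⟨h1, h2⟩, h3⟩
    exact ⟨by omega, h3⟩
  · rintro ⟨h1, h2⟩
    exact ⟨⟨h2.pos, by omega⟩, h2⟩

theorem prime_lower : ∀ᶠ N : ℕ in atTop, (N : ℝ) / (2 * Real.log N) ≤ (cnt Nat.Prime N : ℝ) := by
  have h1 : ∀ᶠ x : ℝ in atTop, Real.log x ≤ (1 / 10) * x := by
    have := Real.isLittleO_log_id_atTop.def (show (0 : ℝ) < 1 / 10 by norm_num)
    filter_upwards [this, eventually_ge_atTop 1] with x hx hx1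
    rw [Real.norm_eq_abs, id_eq, Real.norm_eq_abs, abs_of_nonneg (by linarith : (0 : ℝ) ≤ x)] at hx
    exact (le_abs_self _).trans hx
  have h2 : ∀ᶠ N : ℕ in atTop, Real.log (((N : ℝ)) + 1) ≤ (1 / 10) * ((N : ℝ) + 1) := by
    have h3 : Tendsto (fun N : ℕ => (N : ℝ) + 1) atTop atTop :=
      tendsto_atTop_add_const_right _ _ tendsto_natCast_atTop_atTop
    exact h3.eventually h1
  filter_upwards [h2, eventually_ge_atTop 10] with N hN hN10
  rw [cnt_prime]
  have h4 := Chebyshev.pi_ge N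
  refine le_trans ?_ h4
  have hNr : (10 : ℝ) ≤ N := by exact_mod_cast hN10
  have hlog : 0 < Real.log N := Real.log_pos (by linarith)
  rw [div_le_div_iff₀ (by positivity) hlog]
  have hl2 : (0.69 : ℝ) < Real.log 2 := by
    have := Real.log_two_gt_d9
    linarith
  have h5 : (N : ℝ) ≤ 2 * (N * Real.log 2 - Real.log (N + 1)) := by nlinarith
  nlinarith

/-- eighth root -/
def zz (N : ℕ) : ℕ := Nat.sqrt (Nat.sqrt (Nat.sqrt N))

theorem zz_pow_le (N : ℕ) : zz N ^ 8 ≤ N := by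
  have h1 : zz N ^ 2 ≤ Nat.sqrt (Nat.sqrt N) := Nat.sqrt_le' _
  have h2 : Nat.sqrt (Nat.sqrt N) ^ 2 ≤ Nat.sqrt N := Nat.sqrt_le' _
  have h3 : Nat.sqrt N ^ 2 ≤ N := Nat.sqrt_le' _
  calc zz N ^ 8 = ((zz N ^ 2) ^ 2) ^ 2 := by ring
    _ ≤ ((Nat.sqrt (Nat.sqrt N)) ^ 2) ^ 2 := by gcongr
    _ ≤ (Nat.sqrt N) ^ 2 := by gcongr
    _ ≤ N := h3

theorem lt_zz_pow (N : ℕ) : N < (zz N + 1) ^ 8 := by
  have h1 : Nat.sqrt (Nat.sqrt N) < (zz N + 1) ^ 2 := Nat.lt_succ_sqrt' _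
  have h2 : Nat.sqrt N < (Nat.sqrt (Nat.sqrt N) + 1) ^ 2 := Nat.lt_succ_sqrt' _
  have h3 : N < (Nat.sqrt N + 1) ^ 2 := Nat.lt_succ_sqrt' _
  calc N < (Nat.sqrt N + 1) ^ 2 := h3
    _ ≤ ((Nat.sqrt (Nat.sqrt N) + 1) ^ 2) ^ 2 := by gcongr; omega
    _ ≤ (((zz N + 1) ^ 2) ^ 2) ^ 2 := by gcongr; omega
    _ = (zz N + 1) ^ 8 := by ring

theorem log_zz {N : ℕ} (hN : 256 ≤ N) : 2 ≤ zz N ∧ Real.log N ≤ 16 * Real.log (zz N) := by
  have h2 : 2 ≤ zz N := by
    by_contra hcon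
    push Not at hcon
    have h3 := lt_zz_pow N
    have h4 : (zz N + 1) ^ 8 ≤ 2 ^ 8 := by
      apply Nat.pow_le_pow_left
      omega
    have h5 : (2 : ℕ) ^ 8 = 256 := by norm_num
    omega
  refine ⟨h2, ?_⟩
  have h3 := lt_zz_pow N
  have h6 : zz N + 1 ≤ zz N ^ 2 := by nlinarith
  have h7 : N ≤ zz N ^ 16 := by
    calc N ≤ (zz N + 1) ^ 8 := h3.le
      _ ≤ (zz N ^ 2) ^ 8 := Nat.pow_le_pow_left h6 8
      _ = zz N ^ 16 := by ring
  have h8 : Real.log N ≤ Real.log ((zz N : ℝ) ^ 16) := by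
    apply Real.log_le_log
    · exact_mod_cast (by omega : 0 < N)
    · exact_mod_cast h7
  rw [Real.log_pow] at h8
  exact_mod_cast h8

theorem zz_error {N : ℕ} : ((zz N : ℝ)) ^ 2 + (zz N : ℝ) ^ 4 ≤ 2 * Real.sqrt N := by
  have h1 : ((zz N : ℝ)) ^ 4 ≤ Real.sqrt N := by
    apply Real.le_sqrt_of_sq_le
    have : ((zz N : ℝ) ^ 4) ^ 2 = (zz N : ℝ) ^ 8 := by ring
    rw [this]
    exact_mod_cast zz_pow_le N
  have h2 : ((zz N : ℝ)) ^ 2 ≤ (zz N : ℝ) ^ 4 := by
    rcases Nat.eq_zero_or_pos (zz N) with h | h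
    · rw [h]
      simp
    · have : (1 : ℝ) ≤ zz N := by exact_mod_cast h
      exact pow_le_pow_right₀ this (by norm_num)
  linarith

theorem tendsto_small (a b : ℝ) : Tendsto (fun N : ℕ => (a + b * (2 * Real.sqrt N)) *
    (2 * Real.log N / N)) atTop (𝓝 0) := by
  have h1 : Tendsto (fun x : ℝ => (a + b * (2 * Real.sqrt x)) * (2 * Real.log x / x)) atTop (𝓝 0) := by
    have hlog1 : Tendsto (fun x : ℝ => Real.log x / x) atTop (𝓝 0) := by
      have := Real.isLittleO_log_id_atTop.tendsto_div_nhds_zero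
      exact this
    have hlog2 : Tendsto (fun x : ℝ => Real.log x / x ^ (1 / 2 : ℝ)) atTop (𝓝 0) :=
      (isLittleO_log_rpow_atTop (by norm_num)).tendsto_div_nhds_zero
    have h3 := (hlog1.const_mul (2 * a)).add (hlog2.const_mul (4 * b))
    rw [mul_zero, mul_zero, add_zero] at h3
    refine h3.congr' ?_
    filter_upwards [eventually_gt_atTop 0] with x hx
    rw [← Real.sqrt_eq_rpow]
    have hs : Real.sqrt x ≠ 0 := (Real.sqrt_pos.mpr hx).ne'
    have hx2 : x = Real.sqrt x * Real.sqrt x := (Real.mul_self_sqrt hx.le).symm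
    have h5 : Real.log x / Real.sqrt x = Real.sqrt x * (Real.log x / x) := by
      rw [← mul_div_assoc, div_eq_div_iff hs hx.ne']
      nth_rewrite 2 [hx2]
      ring
    rw [h5]
    ring
  exact h1.comp tendsto_natCast_atTop_atTop

theorem null_badPrime {p : ℕ} (hp : p.Prime) :
    Tendsto (fun N : ℕ => (cnt (BadPrime p) N : ℝ) / (cnt Nat.Prime N : ℝ)) atTop (𝓝 0) := by
  have : Fact p.Prime := ⟨hp⟩
  have hW := tendsto_WW adm2_βp (p := p)
  rw [Metric.tendsto_atTop]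
  intro ε hε
  have h1 : ∀ᶠ y in atTop, WW βp p y < ε / (2 ^ (p + 1) * 128) :=
    hW.eventually_lt_const (by positivity)
  obtain ⟨y, hy1, hy2⟩ := (h1.and (eventually_ge_atTop p)).exists
  have hW0 := WW_nonneg adm2_βp.adm p y
  have hsm := (tendsto_small (y : ℝ) ((aliveCl p y).card : ℝ)).eventually_lt_const
    (show (0 : ℝ) < ε / 2 by positivity)
  have hfin : ∀ᶠ N : ℕ in atTop, dist ((cnt (BadPrime p) N : ℝ) / (cnt Nat.Prime N : ℝ)) 0 < ε := by
    filter_upwards [hsm, prime_lower, eventually_ge_atTop 256] with N hN1 hN2 hN3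
    obtain ⟨hz2, hzlog⟩ := log_zz hN3
    have hNr : (256 : ℝ) ≤ N := by exact_mod_cast hN3
    have hlog : 0 < Real.log N := Real.log_pos (by linarith)
    have hlogz : 0 < Real.log (zz N) := Real.log_pos (by exact_mod_cast (by omega : 1 < zz N))
    have hpi : (0 : ℝ) < N / (2 * Real.log N) := by positivity
    have hpi' : (0 : ℝ) < cnt Nat.Prime N := lt_of_lt_of_le hpi hN2
    rw [Real.dist_eq, sub_zero, abs_of_nonneg (by positivity), div_lt_iff₀ hpi']
    have h2 := cnt_badPrime_le hp hy2 hz2 N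
    have h3 : ((aliveCl p y).card : ℝ) * ((zz N : ℝ) ^ 2 + (zz N : ℝ) ^ 4) ≤
        ((aliveCl p y).card : ℝ) * (2 * Real.sqrt N) :=
      mul_le_mul_of_nonneg_left zz_error (by positivity)
    have h4 : 2 * (N : ℝ) / Real.log (zz N) ≤ 64 * (N / (2 * Real.log N)) := by
      rw [mul_div_assoc', div_le_div_iff₀ hlogz (by positivity)]
      nlinarith
    have h5 : (2 : ℝ) ^ (p + 1) * WW βp p y * (2 * N / Real.log (zz N)) ≤
        2 ^ (p + 1) * WW βp p y * (64 * (N / (2 * Real.log N))) :=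
      mul_le_mul_of_nonneg_left h4 (by positivity)
    have h6 : (2 : ℝ) ^ (p + 1) * WW βp p y * 64 < ε / 2 := by
      rw [lt_div_iff₀ (by positivity)] at hy1
      linarith
    have h7 : (y : ℝ) + ((aliveCl p y).card : ℝ) * (2 * Real.sqrt N) ≤
        ε / 2 * (N / (2 * Real.log N)) := by
      have h8 : (2 * Real.log N / N) * (N / (2 * Real.log N)) = 1 := by
        have : (N : ℝ) ≠ 0 := by linarith
        field_simp
      calc (y : ℝ) + ((aliveCl p y).card : ℝ) * (2 * Real.sqrt N) =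
          ((y : ℝ) + ((aliveCl p y).card : ℝ) * (2 * Real.sqrt N)) * (2 * Real.log N / N) *
            (N / (2 * Real.log N)) := by rw [mul_assoc, h8, mul_one]
        _ ≤ ε / 2 * (N / (2 * Real.log N)) := mul_le_mul_of_nonneg_right hN1.le hpi.le
    have h9 : (2 : ℝ) ^ (p + 1) * WW βp p y * (64 * (N / (2 * Real.log N))) <
        ε / 2 * (N / (2 * Real.log N)) := by
      have := mul_lt_mul_of_pos_right h6 hpi
      linarith
    have h10 : ε * (N / (2 * Real.log N)) ≤ ε * cnt Nat.Prime N :=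
      mul_le_mul_of_nonneg_left hN2 hε.le
    linarith
  exact eventually_atTop.mp hfin

end Pool.Agent.EMSeed
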